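import Pool.Agent.W_MP_6d5819_gt.Subdiv

set_option autoImplicit false

/-! Homogeneous chains on tuples of elements of a set. -/

namespace Pool.Agent.W_3f1825_top

/-- tuples of elements of `S`; the first component is the dimension -/
abbrev Tu (S : Type) : Type := Σ m : ℕ, (Fin (m + 1) → S)

/-- homogeneous chains, all degrees -/
abbrev TC (R S : Type) [CommRing R] : Type := Tu S →₀ R

variable (R : Type) [CommRing R] {S S' S'' : Type}

/-- boundary of a tuple -/
noncomputable def bdTu : Tu S → TC R S
  | ⟨0, _⟩ => 0
  | ⟨m + 1, v⟩ => ∑ i : Fin (m + 2), Finsupp.single ⟨m, fun j => v (i.succAbove j)⟩ ((-1 : R) ^ (i : ℕ))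

/-- boundary operator of homogeneous chains -/
noncomputable def bdT : TC R S →ₗ[R] TC R S := Finsupp.linearCombination R (bdTu R)

/-- chains of degree `m` -/
noncomputable def tin (S : Type) (m : ℕ) : Submodule R (TC R S) :=
  Finsupp.supported R R {s : Tu S | s.1 = m}

/-- map of tuples induced by a map of sets -/
def mpTu (f : S → S') (s : Tu S) : Tu S' := ⟨s.1, f ∘ s.2⟩

/-- map of chains induced by a map of sets -/
noncomputable def mpT (f : S → S') : TC R S →ₗ[R] TC R S' := Finsupp.lmapDomain R R (mpTu f)

/-- the span of `g v - v` in the homogeneous chains of a `G`-set -/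
noncomputable def dltT (G : Type) [Group G] [MulAction G S] : Submodule R (TC R S) :=
  Submodule.span R (Set.range fun p : G × TC R S => mpT R (fun s : S => p.1 • s) p.2 - p.2)

/-- the `l¹` norm of a finitely supported function -/
noncomputable def nrm {T : Type} (c : T →₀ ℝ) : ℝ := ∑ t ∈ c.support, |c t|

end Pool.Agent.W_3f1825_top
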