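import Pool.Agent.W_3f1825_top.Sub

set_option autoImplicit false

/-! Singular chains and quotient covering maps. -/

open scoped Topology

namespace Pool.Agent.W_3f1825_top

open Pool.Agent.W_MP_6d5819_gt

/-- retraction of `ℝ^(n+1)` onto the simplex -/
noncomputable def retr (n : ℕ) : C(Fin (n + 1) → ℝ, Simp (n + 1)) where
  toFun x := ⟨fun j => (max (x j) 0 + max (1 - ∑ i, max (x i) 0) 0 / (n + 1)) /
    max (∑ i, max (x i) 0) 1, by
      have h0 : (0 : ℝ) < max (∑ i, max (x i) 0) 1 := lt_of_lt_of_le one_pos (le_max_right _ _)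
      refine ⟨fun j => by positivity, ?_⟩
      rw [← Finset.sum_div, Finset.sum_add_distrib, Finset.sum_const, Finset.card_univ,
        Fintype.card_fin, nsmul_eq_mul]
      push_cast
      rw [mul_div_cancel₀ _ (by positivity : (n : ℝ) + 1 ≠ 0), div_eq_one_iff_eq h0.ne']
      rcases le_total (∑ i, max (x i) 0) 1 with h | h
      · rw [max_eq_left (by linarith), max_eq_right h]; ring
      · rw [max_eq_right (by linarith), max_eq_left h]; ring⟩
  continuous_toFun := by
    refine Continuous.subtype_mk ?_ _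
    refine continuous_pi fun j => ?_
    refine Continuous.div (by fun_prop) (by fun_prop) fun x => ?_
    exact (lt_of_lt_of_le one_pos (le_max_right _ _)).ne'

theorem retr_coe {n : ℕ} (s : Simp (n + 1)) : retr n (s : Fin (n + 1) → ℝ) = s := by
  ext j
  have h1 : ∀ i, max ((s : Fin (n + 1) → ℝ) i) 0 = s i := fun i => max_eq_left (s.2.1 i)
  have h2 : ∑ i, (s : Fin (n + 1) → ℝ) i = 1 := s.2.2
  change (max ((s : Fin (n + 1) → ℝ) j) 0 + max (1 - ∑ i, max ((s : Fin (n + 1) → ℝ) i) 0) 0 /
    (n + 1)) / max (∑ i, max ((s : Fin (n + 1) → ℝ) i) 0) 1 = s j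
  simp only [h1, h2]
  simp

variable {X M : Type} [TopologicalSpace X] [TopologicalSpace M]

/-- lifting of singular simplices -/
theorem exists_lift_simplex {f : X → M} (hf : IsCoveringMap f) {n : ℕ} (σ : C(Simp (n + 1), M))
    (a : Simp (n + 1)) (x : X) (hx : f x = σ a) :
    ∃ τ : C(Simp (n + 1), X), τ a = x ∧ ∀ s, f (τ s) = σ s := by
  obtain ⟨F, ⟨hF1, hF2⟩, -⟩ := hf.existsUnique_continuousMap_lifts (σ.comp (retr n))
    (a : Fin (n + 1) → ℝ) x (by
      change f x = σ (retr n (a : Fin (n + 1) → ℝ))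
      rw [retr_coe, hx])
  refine ⟨F.comp ⟨fun s : Simp (n + 1) => (s : Fin (n + 1) → ℝ), continuous_subtype_val⟩, hF1, ?_⟩
  intro s
  have := congrFun hF2 (s : Fin (n + 1) → ℝ)
  change f (F (s : Fin (n + 1) → ℝ)) = σ (retr n (s : Fin (n + 1) → ℝ)) at this
  rw [retr_coe] at this
  exact this

variable (G : Type) [Group G] [MulAction G X]

/-- the action of a group element as a continuous map -/
def act [ContinuousConstSMul G X] (g : G) : C(X, X) := ⟨fun x => g • x, continuous_const_smul g⟩

/-- the span of `g v - v` in the singular chains -/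
noncomputable def dlt (R : Type) [CommRing R] [ContinuousConstSMul G X] : Submodule R (Ch R X) :=
  Submodule.span R (Set.range fun p : G × Ch R X => push R (act G p.1) p.2 - p.2)

variable {G}

theorem dlt_mem (R : Type) [CommRing R] [ContinuousConstSMul G X] (g : G) (c : Ch R X) :
    push R (act G g) c - c ∈ dlt (X := X) G R := Submodule.subset_span ⟨(g, c), rfl⟩

theorem dlt_bd (R : Type) [CommRing R] [ContinuousConstSMul G X] {c : Ch R X}
    (hc : c ∈ dlt (X := X) G R) : bd R c ∈ dlt (X := X) G R := by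
  refine Submodule.span_induction (p := fun c _ => bd R c ∈ dlt (X := X) G R) ?_ ?_ ?_ ?_ hc
  · rintro _ ⟨⟨g, v⟩, rfl⟩
    simp only [map_sub, bd_push]
    exact dlt_mem R g _
  · rw [map_zero]; exact Submodule.zero_mem _
  · intro a b _ _ ha hb
    rw [map_add]
    exact Submodule.add_mem _ ha hb
  · intro r a _ ha
    rw [map_smul]
    exact Submodule.smul_mem _ _ ha

section

variable {f : C(X, M)} (hf : IsQuotientCoveringMap f G)
include hf

theorem push_dlt (R : Type) [CommRing R] [ContinuousConstSMul G X] {c : Ch R X}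
    (hc : c ∈ dlt (X := X) G R) : push R f c = 0 := by
  refine Submodule.span_induction (p := fun c _ => push R f c = 0) ?_ ?_ ?_ ?_ hc
  · rintro _ ⟨⟨g, v⟩, rfl⟩
    have h : f.comp (act G g) = f := by
      ext x
      exact hf.map_smul g
    simp only [map_sub, push_push, h, sub_self]
  · exact map_zero _
  · intro a b _ _ ha hb
    rw [map_add, ha, hb, add_zero]
  · intro r a _ ha
    rw [map_smul, ha, smul_zero]

/-- two lifts of a simplex differ by a group element -/
theorem exists_smul_eq [ContinuousConstSMul G X] {n : ℕ} (σ τ : C(Simp (n + 1), X))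
    (h : ∀ s, f (σ s) = f (τ s)) : ∃ g : G, (act G g).comp τ = σ := by
  obtain ⟨g, hg⟩ := hf.apply_eq_iff_mem_orbit.1 (h (vtx 0))
  refine ⟨g, ?_⟩
  have hcov := hf.isCoveringMap
  have hcoe : ⇑((act G g).comp τ) = ⇑σ := by
    refine hcov.eq_of_comp_eq ((act G g).comp τ).continuous σ.continuous ?_ (vtx 0) ?_
    · funext s
      change f (g • τ s) = f (σ s)
      rw [hf.map_smul g, h s]
    · exact hg
  ext s
  exact congrFun hcoe s

/-- a set-theoretic section of the lifting -/
theorem exists_section : ∃ l : Sing M → Sing X, ∀ s, pushSimp f (l s) = s := by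
  have h : ∀ s : Sing M, ∃ t : Sing X, pushSimp f t = s := by
    rintro ⟨n, σ⟩
    obtain ⟨x, hx⟩ := hf.surjective (σ (vtx 0))
    obtain ⟨τ, -, hτ⟩ := exists_lift_simplex hf.isCoveringMap σ (vtx 0) x hx
    refine ⟨⟨n, τ⟩, ?_⟩
    have : f.comp τ = σ := by
      ext s
      exact hτ s
    simp [pushSimp, this]
  choose l hl using h
  exact ⟨l, hl⟩

theorem exists_lift_chain (R : Type) [CommRing R] {n : ℕ} {c : Ch R M}
    (hc : c ∈ chIn R n (Set.univ : Set M)) :
    ∃ c' ∈ chIn R n (Set.univ : Set X), push R f c' = c := by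
  refine chIn_induction R (P := fun c => ∃ c' ∈ chIn R n (Set.univ : Set X),
    push R f c' = c) ⟨0, Submodule.zero_mem _, by simp⟩ ?_ ?_ c hc
  · rintro a b _ _ ⟨a', ha', rfl⟩ ⟨b', hb', rfl⟩
    exact ⟨a' + b', Submodule.add_mem _ ha' hb', by rw [map_add]⟩
  · intro σ _ r
    obtain ⟨x, hx⟩ := hf.surjective (σ (vtx 0))
    obtain ⟨τ, -, hτ⟩ := exists_lift_simplex hf.isCoveringMap σ (vtx 0) x hx
    refine ⟨Finsupp.single (⟨n, τ⟩ : Sing X) r, single_mem_chIn R τ (Set.subset_univ _) r, ?_⟩
    rw [push_single]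
    have : f.comp τ = σ := by
      ext s
      exact hτ s
    rw [pushSimp, this]

/-- the kernel of the push forward to the quotient -/
theorem ker_push (R : Type) [CommRing R] [ContinuousConstSMul G X] {c : Ch R X}
    (hc : push R f c = 0) : c ∈ dlt (X := X) G R := by
  obtain ⟨l, hl⟩ := exists_section hf
  have key : ∀ c : Ch R X, c - Finsupp.lmapDomain R R l (push R f c) ∈ dlt (X := X) G R := by
    intro c
    induction c using Finsupp.induction_linear with
    | zero => simp
    | add a b ha hb =>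
      rw [map_add, map_add]
      have := Submodule.add_mem _ ha hb
      convert this using 1
      abel
    | single s r =>
      rw [push_single, Finsupp.lmapDomain_apply, Finsupp.mapDomain_single]
      have h1 := hl (pushSimp f s)
      obtain ⟨n, σ⟩ := s
      obtain ⟨m, τ, hτ⟩ : ∃ m, ∃ τ : C(Simp (m + 1), X), l (pushSimp f ⟨n, σ⟩) = ⟨m, τ⟩ :=
        ⟨_, _, rfl⟩
      rw [hτ] at h1 ⊢
      have hm : m = n := congrArg Sigma.fst h1
      subst hm
      have h2 : f.comp τ = f.comp σ := by simpa [pushSimp] using h1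
      obtain ⟨g, hg⟩ := exists_smul_eq hf σ τ fun s => (DFunLike.congr_fun h2 s).symm
      have h3 := dlt_mem (G := G) R g (Finsupp.single (⟨m, τ⟩ : Sing X) r)
      rw [push_single, pushSimp, hg] at h3
      exact h3
  have h := key c
  rwa [hc, map_zero, sub_zero] at h

end

end Pool.Agent.W_3f1825_top
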