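import Pool.Agent.W_3f1825_top.Dim

set_option autoImplicit false

/-! Closure properties of locally Euclidean spaces. -/

open scoped Topology

namespace Pool.Agent.W_3f1825_top

open Pool.Agent.W_MP_6d5819_gt

variable {d : ℕ} {X Y : Type} [TopologicalSpace X] [TopologicalSpace Y]

theorem LocEuc_of_homeo {E : Type} [TopologicalSpace E] (φ : E ≃ₜ (Fin d → ℝ))
    (h : ∀ x : X, ∃ e : OpenPartialHomeomorph X E, x ∈ e.source) : LocEuc d X := by
  intro x
  obtain ⟨e, he⟩ := h x
  refine ⟨e.trans φ.toOpenPartialHomeomorph, ?_⟩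
  simp [he]

/-- manifolds -/
theorem LocEuc_of_charted [ChartedSpace (EuclideanSpace ℝ (Fin d)) X] : LocEuc d X :=
  LocEuc_of_homeo (EuclideanSpace.equiv (Fin d) ℝ).toHomeomorph fun x =>
    ⟨chartAt (EuclideanSpace ℝ (Fin d)) x, mem_chart_source _ x⟩

/-- source of a local homeomorphism -/
theorem LocEuc_source {f : X → Y} (hf : IsLocalHomeomorph f) (h : LocEuc d Y) : LocEuc d X := by
  intro x
  obtain ⟨e, he, rfl⟩ := hf x
  obtain ⟨φ, hφ⟩ := h (e x)
  exact ⟨e.trans φ, by simp [he, hφ]⟩

/-- target of a surjective local homeomorphism -/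
theorem LocEuc_target {f : X → Y} (hf : IsLocalHomeomorph f) (hs : Function.Surjective f)
    (h : LocEuc d X) : LocEuc d Y := by
  intro y
  obtain ⟨x, rfl⟩ := hs y
  obtain ⟨e, he, rfl⟩ := hf x
  obtain ⟨φ, hφ⟩ := h x
  exact ⟨e.symm.trans φ, by simp [he, hφ]⟩

theorem LocEuc_quotient {G : Type} [Group G] [MulAction G X] {f : X → Y}
    (hf : IsQuotientCoveringMap f G) (h : LocEuc d X) : LocEuc d Y :=
  LocEuc_target hf.isCoveringMap.isLocalHomeomorph hf.surjective h

/-- powers -/
theorem LocEuc_pow (p : ℕ) (h : LocEuc d X) : LocEuc (p * d) (Fin p → X) := by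
  classical
  let φ : (Fin p → Fin d → ℝ) ≃ₜ (Fin (p * d) → ℝ) :=
    { toFun := fun x k => x (finProdFinEquiv.symm k).1 (finProdFinEquiv.symm k).2
      invFun := fun y i j => y (finProdFinEquiv (i, j))
      left_inv := fun x => by
        funext i j
        simp
      right_inv := fun y => by
        funext k
        have : finProdFinEquiv ((finProdFinEquiv.symm k).1, (finProdFinEquiv.symm k).2) = k := by
          rw [Prod.mk.eta, Equiv.apply_symm_apply]
        exact congrArg y this
      continuous_toFun := by fun_prop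
      continuous_invFun := by fun_prop }
  refine LocEuc_of_homeo φ ?_
  intro x
  choose e he using fun i => h (x i)
  refine ⟨OpenPartialHomeomorph.pi e, ?_⟩
  simp [he]

end Pool.Agent.W_3f1825_top
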