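import Pool.Agent.W_3f1825_top.Final0

set_option autoImplicit false

/-! Vanishing of the `l¹` seminorm from the vanishing of the homology of a central quotient. -/

namespace Pool.Agent.W_3f1825_top

open Pool.Agent.W_MP_6d5819_gt (Ch Sing Simp chIn cyc bds bd)

/-- the hypothesis on the central quotient, in homogeneous chains -/
def VanB (L : Type) [Group L] (z : L) (n : ℕ) : Prop :=
  ∀ y ∈ tin ℝ (L ⧸ Subgroup.zpowers z) n,
    bdT ℝ y ∈ dltT ℝ (S := L ⧸ Subgroup.zpowers z) L →
    ∃ w ∈ tin ℝ (L ⧸ Subgroup.zpowers z) (n + 1),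
      y - bdT ℝ w ∈ dltT ℝ (S := L ⧸ Subgroup.zpowers z) L

theorem VanT_of_VanB {L : Type} [Group L] {z : L} (hz : ∀ g : L, z * g = g * z) {n : ℕ}
    (hB : VanB L z n) : VanT L n := by
  intro c hc hdc ε hε
  have hpow : ∀ (a : ℤ) (s : L), ((Equiv.mulLeft z) ^ a) s = z ^ a * s := by
    intro a s
    have h : Equiv.mulLeft z = MulAction.toPermHom L L z := rfl
    rw [h, ← map_zpow]
    rfl
  refine step5 (S := L) (G := L) (B := L ⧸ Subgroup.zpowers z) (Equiv.mulLeft z) ?_ ?_
    (π := fun s => (s : L ⧸ Subgroup.zpowers z)) ?_ ?_ ?_ hB hc hdc hε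
  · intro g s
    change z * (g * s) = g * (z * s)
    rw [← mul_assoc, hz, mul_assoc]
  · intro g s h
    exact mul_eq_right.1 h
  · exact QuotientGroup.mk_surjective
  · intro g s
    rfl
  · intro s s' h
    have h1 := QuotientGroup.eq.1 h
    obtain ⟨a, ha⟩ := Subgroup.mem_zpowers_iff.1 h1
    refine ⟨a, ?_⟩
    rw [hpow]
    have h2 : s' = s * z ^ a := by rw [ha]; group
    have h3 : Commute z s := hz s
    rw [h2]
    exact ((h3.zpow_left a).eq).symm

/-- **Steps 0, 5, 6.** -/
theorem main0 {X M : Type} [TopologicalSpace X] [TopologicalSpace M] [ContractibleSpace X]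
    {G : Type} [Group G] [MulAction G X] {f : C(X, M)} (hf : IsQuotientCoveringMap f G)
    (L : Subgroup G) [L.FiniteIndex] {z : L} (hz : ∀ g : L, z * g = g * z) {n : ℕ}
    (hB : VanB L z n) :
    ∀ c ∈ cyc ℝ n (Set.univ : Set M), ∀ ε : ℝ, 0 < ε →
      ∃ c' ∈ cyc ℝ n (Set.univ : Set M), c - c' ∈ bds ℝ n (Set.univ : Set M) ∧ nrm c' < ε := by
  have : ContinuousConstSMul G X := hf.toContinuousConstSMul
  have hc := hf.isCancelSMul
  have hfree : ∀ (g : G) (x : X), g • x = x → g = 1 := by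
    intro g x h
    exact IsCancelSMul.right_cancel g 1 x (by rw [h, one_smul])
  have hfreeL : ∀ (g : L) (x : X), g • x = x → g = 1 := by
    intro g x h
    exact Subtype.ext (hfree (g : G) x h)
  exact seminorm_zero hf (VanS_of_finiteIndex L (VanS_of_VanT hfreeL (VanT_of_VanB hz hB)))

end Pool.Agent.W_3f1825_top
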