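import Pool.Agent.W_3f1825_top.Avg

set_option autoImplicit false

/-! The `l¹` step: cycles that bound in the quotient have vanishing seminorm. -/

open Filter Topology

namespace Pool.Agent.W_3f1825_top

/-- the projection to degree `n` -/
noncomputable def prT (R : Type) [CommRing R] {S : Type} (n : ℕ) : TC R S →ₗ[R] TC R S :=
  Finsupp.linearCombination R fun s : Tu S => if s.1 = n then Finsupp.single s (1 : R) else 0

section

variable {R : Type} [CommRing R] {S : Type}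

theorem prT_single_eq (n : ℕ) (v : Fin (n + 1) → S) (r : R) :
    prT R n (Finsupp.single (⟨n, v⟩ : Tu S) r) = Finsupp.single (⟨n, v⟩ : Tu S) r := by
  simp [prT]

theorem prT_single_ne {n m : ℕ} (h : m ≠ n) (v : Fin (m + 1) → S) (r : R) :
    prT R n (Finsupp.single (⟨m, v⟩ : Tu S) r) = 0 := by
  simp [prT, h]

theorem prT_mem (n : ℕ) (c : TC R S) : prT R n c ∈ tin R S n := by
  induction c using Finsupp.induction_linear with
  | zero => rw [map_zero]; exact Submodule.zero_mem _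
  | add a b ha hb => rw [map_add]; exact Submodule.add_mem _ ha hb
  | single s r =>
    obtain ⟨m, v⟩ := s
    by_cases h : m = n
    · subst h
      rw [prT_single_eq]
      exact single_mem_tin R v r
    · rw [prT_single_ne h]
      exact Submodule.zero_mem _

theorem prT_of_mem {n : ℕ} {c : TC R S} (hc : c ∈ tin R S n) : prT R n c = c := by
  refine tin_induction R (P := fun c => prT R n c = c) (map_zero _)
    (fun a b _ _ ha hb => by rw [map_add, ha, hb]) ?_ c hc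
  intro v r
  exact prT_single_eq n v r

theorem prT_mpT {S' : Type} (f : S → S') (n : ℕ) (c : TC R S) :
    prT R n (mpT R f c) = mpT R f (prT R n c) := by
  induction c using Finsupp.induction_linear with
  | zero => simp
  | add a b ha hb => simp only [map_add, ha, hb]
  | single s r =>
    obtain ⟨m, v⟩ := s
    rw [mpT_single, mpTu]
    by_cases h : m = n
    · subst h
      rw [prT_single_eq, prT_single_eq, mpT_single]
      rfl
    · rw [prT_single_ne h, prT_single_ne h, map_zero]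

variable {G : Type} [Group G] [MulAction G S]

theorem prT_dltT (n : ℕ) {c : TC R S} (hc : c ∈ dltT R (S := S) G) :
    prT R n c ∈ dltT R (S := S) G := by
  refine dltT_le R (prT R n) _ ?_ hc
  intro g c
  rw [map_sub, prT_mpT]
  exact dltT_mem R g _

theorem mpT_dltT {S' : Type} [MulAction G S'] {f : S → S'} (hf : ∀ (g : G) s, f (g • s) = g • f s)
    {c : TC R S} (hc : c ∈ dltT R (S := S) G) : mpT R f c ∈ dltT R (S := S') G := by
  refine dltT_le R (mpT R f) _ ?_ hc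
  intro g c
  have h : f ∘ (fun s : S => g • s) = (fun s : S' => g • s) ∘ f := funext fun s => hf g s
  rw [map_sub, mpT_mpT, h, ← mpT_mpT]
  exact dltT_mem R g _

theorem exists_lift_dltT {S' : Type} [MulAction G S'] {f : S → S'}
    (hf : ∀ (g : G) s, f (g • s) = g • f s) (hs : Function.Surjective f)
    {c : TC R S'} (hc : c ∈ dltT R (S := S') G) : ∃ c' ∈ dltT R (S := S) G, mpT R f c' = c := by
  obtain ⟨σ, hσ⟩ := hs.hasRightInverse
  have hfσ : f ∘ σ = id := funext hσ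
  refine Submodule.span_induction (p := fun c _ => ∃ c' ∈ dltT R (S := S) G, mpT R f c' = c)
    ?_ ?_ ?_ ?_ hc
  · rintro _ ⟨⟨g, v⟩, rfl⟩
    refine ⟨_, dltT_mem R g (mpT R σ v), ?_⟩
    have h : f ∘ (fun s : S => g • s) = (fun s : S' => g • s) ∘ f := funext fun s => hf g s
    simp only
    rw [map_sub, mpT_mpT, mpT_mpT, mpT_mpT, h, Function.comp_assoc, hfσ, mpT_id]
    rfl
  · exact ⟨0, Submodule.zero_mem _, map_zero _⟩
  · rintro a b _ _ ⟨a', ha', rfl⟩ ⟨b', hb', rfl⟩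
    exact ⟨a' + b', Submodule.add_mem _ ha' hb', map_add _ _ _⟩
  · rintro r a _ ⟨a', ha', rfl⟩
    exact ⟨r • a', Submodule.smul_mem _ _ ha', map_smul _ _ _⟩

end

variable {S : Type} {G : Type} [Group G] [MulAction G S]

theorem avg_homotopy (ζ : Equiv.Perm S) (hζ : ∀ (g : G) s, ζ (g • s) = g • ζ s)
    (hfree : ∀ (g : G) (s : S), g • s = s → g = 1) (s₀ : S) {N : ℕ} (hN : 0 < N) :
    ∃ h : TC ℝ S →ₗ[ℝ] TC ℝ S, (∀ (g : G) x, h (mpT ℝ (fun s => g • s) x) =
      mpT ℝ (fun s => g • s) (h x)) ∧ (∀ n, ∀ c ∈ tin ℝ S n, h c ∈ tin ℝ S (n + 1)) ∧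
      ∀ x, bdT ℝ (h x) + h (bdT ℝ x) = x - avg ζ N x := by
  classical
  have hfree' : ∀ (g : G) (t : Tu S), g • t = t → g = 1 := by
    rintro g ⟨m, v⟩ h
    have h1 : (⟨m, g • v⟩ : Tu S) = ⟨m, v⟩ := h
    have h2 : g • v = v := by simpa using h1
    exact hfree g (v 0) (congrFun h2 0)
  have hmp : ∀ (g : G) (x : TC ℝ S), tr ℝ g x = mpT ℝ (fun s => g • s) x := fun g x => rfl
  have hζn : ∀ (g : G) (k : ℕ) s, (ζ ^ k) (g • s) = g • (ζ ^ k) s := by
    intro g k
    induction k with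
    | zero => intro s; rfl
    | succ k ih => intro s; rw [pow_succ, Equiv.Perm.mul_apply, Equiv.Perm.mul_apply, hζ, ih]
  obtain ⟨h, h1, h2, h3⟩ := exists_htpy (R := ℝ) (G := G) (T := Tu S) hfree' (fun s => s.1)
    (fun g t => rfl) (bdT ℝ) (bdT_bdT ℝ) (by
      rintro ⟨m, v⟩
      cases m with
      | zero => rw [bdT_single_zero]; exact Submodule.zero_mem _
      | succ m =>
        refine Finsupp.supported_mono ?_ (bdT_mem ℝ (single_mem_tin ℝ v 1))
        intro t ht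
        have ht' : t.1 = m := ht
        change t.1 + 1 = m + 1
        rw [ht']) (fun g x => by rw [hmp, hmp, bdT_mpT])
    (V := TC ℝ S) (fun g => tr ℝ g) (by
      intro g h v
      have h0 : (fun s : S => (g * h) • s) = (fun s : S => g • s) ∘ (fun s : S => h • s) :=
        funext fun s => mul_smul g h s
      rw [hmp, hmp, hmp, mpT_mpT, h0]) (fun n => tin ℝ S n) (fun g n v hv => by
        rw [hmp]; exact mpT_mem ℝ _ hv) (bdT ℝ) (fun g v => by rw [hmp, hmp, bdT_mpT])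
    (LinearMap.id - avg ζ N) (by
      intro g x
      have : (avg ζ N).comp (tr ℝ g) = (tr ℝ g).comp (avg ζ N) := by
        refine Finsupp.lhom_ext' fun t => LinearMap.ext_ring ?_
        obtain ⟨m, v⟩ := t
        change avg ζ N (tr ℝ g (Finsupp.single (⟨m, v⟩ : Tu S) 1)) =
          tr ℝ g (avg ζ N (Finsupp.single (⟨m, v⟩ : Tu S) 1))
        rw [tr_single]
        change avg ζ N (Finsupp.single (⟨m, g • v⟩ : Tu S) 1) = _
        rw [avg_single, avg_single, map_smul, map_sum]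
        congr 1
        refine Finset.sum_congr rfl fun k _ => ?_
        rw [tr_single]
        congr 1
        change (⟨m, shf ζ N k (g • v)⟩ : Tu S) = ⟨m, g • shf ζ N k v⟩
        congr 1
        funext i
        exact hζn g _ _
      rw [LinearMap.sub_apply, LinearMap.sub_apply, LinearMap.id_apply, LinearMap.id_apply,
        map_sub]
      congr 1
      exact LinearMap.congr_fun this x) (by
      rintro ⟨m, v⟩
      exact Submodule.sub_mem _ (single_mem_tin ℝ v 1) (avg_mem ζ N (single_mem_tin ℝ v 1)))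
    (by
      intro x
      rw [LinearMap.sub_apply, LinearMap.sub_apply, LinearMap.id_apply, LinearMap.id_apply,
        map_sub, bdT_avg ζ hN]) (kT ℝ s₀) (fun n v hv => kT_mem ℝ s₀ hv)
    (fun n v hv => bdT_kT ℝ s₀ hv) (by
      rintro ⟨m, v⟩ hm
      simp only at hm
      subst hm
      rw [LinearMap.sub_apply, LinearMap.id_apply, avg_single, map_sub, map_sub, map_smul,
        map_smul, map_sum, map_sum, bdT_kT_zero]
      simp only [bdT_kT_zero]
      rw [Finset.sum_sub_distrib, smul_sub, Finset.sum_const, Finset.card_univ, Fintype.card_fun,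
        Fintype.card_fin, Fintype.card_fin, ← Nat.cast_smul_eq_nsmul ℝ, smul_smul]
      push_cast
      rw [inv_mul_cancel₀ (by positivity), one_smul]
      abel)
  refine ⟨h, fun g x => h1 g x, ?_, ?_⟩
  · intro n c hc
    exact map_mem_of_tin ℝ h _ (fun v => h2 ⟨n, v⟩) hc
  · intro x
    exact h3 x

/-- **The `l¹` step.** -/
theorem step5 {B : Type} [MulAction G B] (ζ : Equiv.Perm S)
    (hζ : ∀ (g : G) s, ζ (g • s) = g • ζ s) (hfree : ∀ (g : G) (s : S), g • s = s → g = 1)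
    [Nonempty S] {π : S → B} (hπ : Function.Surjective π) (hπg : ∀ (g : G) s, π (g • s) = g • π s)
    (hπζ : ∀ s s', π s = π s' → ∃ a : ℤ, s' = (ζ ^ a) s) {n : ℕ}
    (hB : ∀ y ∈ tin ℝ B n, bdT ℝ y ∈ dltT ℝ (S := B) G →
      ∃ w ∈ tin ℝ B (n + 1), y - bdT ℝ w ∈ dltT ℝ (S := B) G)
    {c : TC ℝ S} (hc : c ∈ tin ℝ S n) (hdc : bdT ℝ c ∈ dltT ℝ (S := S) G) {ε : ℝ} (hε : 0 < ε) :
    ∃ x ∈ tin ℝ S n, ∃ e ∈ tin ℝ S (n + 1), nrm x < ε ∧ c - x - bdT ℝ e ∈ dltT ℝ (S := S) G := by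
  obtain ⟨s₀⟩ := ‹Nonempty S›
  obtain ⟨w, hw, hyw⟩ := hB (mpT ℝ π c) (mpT_mem ℝ π hc) (by
    rw [bdT_mpT]
    exact mpT_dltT hπg hdc)
  obtain ⟨δ₀, hδ₀, hδ₀'⟩ := exists_lift_dltT hπg hπ hyw
  -- lift of `w`
  obtain ⟨σ, hσ⟩ := hπ.hasRightInverse
  have hπσ : π ∘ σ = id := funext hσ
  let w' := mpT ℝ σ w
  have hw' : w' ∈ tin ℝ S (n + 1) := mpT_mem ℝ σ hw
  have hw'' : mpT ℝ π w' = w := by
    change mpT ℝ π (mpT ℝ σ w) = w
    rw [mpT_mpT, hπσ, mpT_id]
  let δ := prT ℝ n δ₀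
  have hδ : δ ∈ dltT ℝ (S := S) G := prT_dltT n hδ₀
  have hδn : δ ∈ tin ℝ S n := prT_mem n δ₀
  have hδ' : mpT ℝ π δ = mpT ℝ π c - bdT ℝ w := by
    change mpT ℝ π (prT ℝ n δ₀) = _
    rw [← prT_mpT, hδ₀', prT_of_mem]
    exact Submodule.sub_mem _ (mpT_mem ℝ π hc) (bdT_mem ℝ hw)
  let c' := c - bdT ℝ w' - δ
  have hc'n : c' ∈ tin ℝ S n := Submodule.sub_mem _ (Submodule.sub_mem _ hc (bdT_mem ℝ hw')) hδn
  have hc'0 : mpT ℝ π c' = 0 := by
    change mpT ℝ π (c - bdT ℝ w' - δ) = 0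
    rw [map_sub, map_sub, hδ', ← bdT_mpT, hw'']
    abel
  have hdc' : bdT ℝ c' ∈ dltT ℝ (S := S) G := by
    change bdT ℝ (c - bdT ℝ w' - δ) ∈ _
    rw [map_sub, map_sub, bdT_bdT, sub_zero]
    exact Submodule.sub_mem _ hdc (dltT_bdT ℝ hδ)
  have hsm := sml_of_map_eq_zero ζ hπ hπζ hc'0
  obtain ⟨N, hN1, hN2⟩ := ((hsm.eventually (gt_mem_nhds hε)).and (eventually_gt_atTop 0)).exists
  obtain ⟨h, hh1, hh2, hh3⟩ := avg_homotopy (G := G) ζ hζ hfree s₀ hN2
  refine ⟨avg ζ N c', avg_mem ζ N hc'n, w' + h c', Submodule.add_mem _ hw' (hh2 n c' hc'n), hN1, ?_⟩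
  have h4 := hh3 c'
  have h5 : c - avg ζ N c' - bdT ℝ (w' + h c') = δ + h (bdT ℝ c') := by
    have h6 : c = c' + bdT ℝ w' + δ := by
      change c = (c - bdT ℝ w' - δ) + bdT ℝ w' + δ
      abel
    have h7 : c' = bdT ℝ (h c') + h (bdT ℝ c') + avg ζ N c' := by rw [h4]; abel
    rw [map_add]
    calc c - avg ζ N c' - (bdT ℝ w' + bdT ℝ (h c')) =
        (c' + bdT ℝ w' + δ) - avg ζ N c' - (bdT ℝ w' + bdT ℝ (h c')) := by rw [← h6]
      _ = c' + δ - avg ζ N c' - bdT ℝ (h c') := by abel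
      _ = (bdT ℝ (h c') + h (bdT ℝ c') + avg ζ N c') + δ - avg ζ N c' - bdT ℝ (h c') := by
          rw [← h7]
      _ = δ + h (bdT ℝ c') := by abel
  rw [h5]
  refine Submodule.add_mem _ hδ ?_
  refine dltT_le ℝ h _ ?_ hdc'
  intro g x
  rw [map_sub, hh1]
  exact dltT_mem ℝ g _

end Pool.Agent.W_3f1825_top
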