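import Mathlib

set_option autoImplicit false

/-! Equivariant chain homotopies from free modules into contractible complexes. -/

namespace Pool.Agent.W_3f1825_top

section

variable {G T : Type} [Group G] [MulAction G T]

/-- orbit representatives for a free action -/
theorem exists_rep (hfree : ∀ (g : G) (t : T), g • t = t → g = 1) :
    ∃ (r : T → T) (γ : T → G), (∀ t, γ t • r t = t) ∧ (∀ (g : G) t, r (g • t) = r t) ∧
      ∀ (g : G) t, γ (g • t) = g * γ t := by
  let r : T → T := fun t => (Quotient.mk (MulAction.orbitRel G T) t).out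
  have h1 : ∀ t, ∃ g : G, g • r t = t := by
    intro t
    have h : (MulAction.orbitRel G T).r (r t) t := Quotient.exact (Quotient.out_eq _)
    obtain ⟨g, hg⟩ := (MulAction.orbitRel_apply.1 h : r t ∈ MulAction.orbit G t)
    refine ⟨g⁻¹, ?_⟩
    rw [← hg]
    simp
  choose γ hγ using h1
  have h2 : ∀ (g : G) t, r (g • t) = r t := by
    intro g t
    have : Quotient.mk (MulAction.orbitRel G T) (g • t) = Quotient.mk (MulAction.orbitRel G T) t :=
      Quotient.sound (MulAction.orbitRel_apply.2 ⟨g, rfl⟩)
    simp only [r, this]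
  refine ⟨r, γ, hγ, h2, ?_⟩
  intro g t
  have h3 : γ (g • t) • r t = g • t := by rw [← h2 g t]; exact hγ _
  have h4 : (g * γ t) • r t = g • t := by rw [mul_smul, hγ]
  have h5 : ((g * γ t)⁻¹ * γ (g • t)) • r t = r t := by
    rw [mul_smul, h3, ← h4, inv_smul_smul]
  have h6 := hfree _ _ h5
  rw [inv_mul_eq_one] at h6
  exact h6.symm

/-- action of a group element on finitely supported functions -/
noncomputable def tr (R : Type) [CommRing R] (g : G) : (T →₀ R) →ₗ[R] (T →₀ R) :=
  Finsupp.lmapDomain R R (fun t => g • t)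

theorem tr_single (R : Type) [CommRing R] (g : G) (t : T) (a : R) :
    tr R g (Finsupp.single t a) = Finsupp.single (g • t) a := by
  simp [tr]

end

variable {R : Type} [CommRing R] {G T : Type} [Group G] [MulAction G T]

/-- **Equivariant homotopies.** -/
theorem exists_htpy (hfree : ∀ (g : G) (t : T), g • t = t → g = 1)
    (deg : T → ℕ) (hdeg : ∀ (g : G) (t : T), deg (g • t) = deg t)
    (dF : (T →₀ R) →ₗ[R] (T →₀ R)) (hdd : ∀ x, dF (dF x) = 0)
    (hdF : ∀ t, dF (Finsupp.single t 1) ∈ Finsupp.supported R R {t' : T | deg t' + 1 = deg t})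
    (hdFe : ∀ (g : G) x, dF (tr R g x) = tr R g (dF x))
    {V : Type} [AddCommGroup V] [Module R V] (ρ : G → V →ₗ[R] V)
    (hρm : ∀ g h v, ρ (g * h) v = ρ g (ρ h v))
    (Vn : ℕ → Submodule R V) (hρn : ∀ g n v, v ∈ Vn n → ρ g v ∈ Vn n)
    (dV : V →ₗ[R] V) (hdVe : ∀ g v, dV (ρ g v) = ρ g (dV v))
    (φ : (T →₀ R) →ₗ[R] V) (hφe : ∀ g x, φ (tr R g x) = ρ g (φ x))
    (hφn : ∀ t, φ (Finsupp.single t 1) ∈ Vn (deg t)) (hφd : ∀ x, dV (φ x) = φ (dF x))
    (K : V →ₗ[R] V) (hKn : ∀ n v, v ∈ Vn n → K v ∈ Vn (n + 1))
    (hK : ∀ n v, v ∈ Vn (n + 1) → dV (K v) + K (dV v) = v)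
    (hK0 : ∀ t, deg t = 0 → dV (K (φ (Finsupp.single t 1))) = φ (Finsupp.single t 1)) :
    ∃ h : (T →₀ R) →ₗ[R] V, (∀ g x, h (tr R g x) = ρ g (h x)) ∧
      (∀ t, h (Finsupp.single t 1) ∈ Vn (deg t + 1)) ∧ ∀ x, dV (h x) + h (dF x) = φ x := by
  classical
  obtain ⟨r, γ, hγ, hr, hγm⟩ := exists_rep hfree
  -- extension by recursion on the degree
  let step : ℕ → ((T →₀ R) →ₗ[R] V) → ((T →₀ R) →ₗ[R] V) := fun n H =>
    Finsupp.linearCombination R fun t => if deg t = n then
      ρ (γ t) (K (φ (Finsupp.single (r t) 1) - H (dF (Finsupp.single (r t) 1))))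
      else H (Finsupp.single t 1)
  let H : ℕ → ((T →₀ R) →ₗ[R] V) := fun n => Nat.rec 0 (fun n H => step n H) n
  have hH0 : H 0 = 0 := rfl
  have hHs : ∀ n t, H (n + 1) (Finsupp.single t 1) = if deg t = n then
      ρ (γ t) (K (φ (Finsupp.single (r t) 1) - H n (dF (Finsupp.single (r t) 1))))
      else H n (Finsupp.single t 1) := by
    intro n t
    change step n (H n) (Finsupp.single t 1) = _
    simp [step]
  have hdr : ∀ t, deg (r t) = deg t := fun t => by
    conv_rhs => rw [← hγ t, hdeg]
  -- linear extension principle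
  have ext : ∀ (n : ℕ) (A B : (T →₀ R) →ₗ[R] V), (∀ t, deg t < n →
      A (Finsupp.single t 1) = B (Finsupp.single t 1)) →
      ∀ x ∈ Finsupp.supported R R {t : T | deg t < n}, A x = B x := by
    intro n A B hAB x hx
    rw [Finsupp.mem_supported] at hx
    have h1 : x = x.sum fun t a => a • Finsupp.single t (1 : R) := by
      conv_lhs => rw [← Finsupp.sum_single x]
      refine Finsupp.sum_congr fun t _ => ?_
      simp
    rw [h1, Finsupp.sum, map_sum, map_sum]
    refine Finset.sum_congr rfl fun t ht => ?_
    rw [map_smul, map_smul, hAB t (hx ht)]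
  have hdFlt : ∀ t n, deg t ≤ n → dF (Finsupp.single t 1) ∈
      Finsupp.supported R R {t : T | deg t < n} := by
    intro t n hn
    refine Finsupp.supported_mono ?_ (hdF t)
    intro t' ht'
    have h : deg t' + 1 = deg t := ht'
    change deg t' < n
    omega
  have key : ∀ n, (∀ t, deg t < n → H n (Finsupp.single t 1) ∈ Vn (deg t + 1)) ∧
      (∀ g t, deg t < n → H n (Finsupp.single (g • t) 1) = ρ g (H n (Finsupp.single t 1))) ∧
      (∀ t, deg t < n → dV (H n (Finsupp.single t 1)) + H n (dF (Finsupp.single t 1)) =
        φ (Finsupp.single t 1)) ∧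
      (∀ t, deg t < n → H (n + 1) (Finsupp.single t 1) = H n (Finsupp.single t 1)) := by
    intro n
    induction n with
    | zero => exact ⟨fun t h => absurd h (Nat.not_lt_zero _), fun g t h => absurd h (Nat.not_lt_zero _),
        fun t h => absurd h (Nat.not_lt_zero _), fun t h => absurd h (Nat.not_lt_zero _)⟩
    | succ n ih =>
      obtain ⟨ih1, ih2, ih3, ih4⟩ := ih
      have ih2' : ∀ g, ∀ x ∈ Finsupp.supported R R {t : T | deg t < n},
          H n (tr R g x) = ρ g (H n x) := by
        intro g
        refine ext n ((H n).comp (tr R g)) ((ρ g).comp (H n)) ?_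
        intro t ht
        change H n (tr R g (Finsupp.single t 1)) = ρ g (H n (Finsupp.single t 1))
        rw [tr_single, ih2 g t ht]
      have ih3' : ∀ x ∈ Finsupp.supported R R {t : T | deg t < n},
          dV (H n x) + H n (dF x) = φ x := by
        refine ext n (dV.comp (H n) + (H n).comp dF) φ ?_
        intro t ht
        exact ih3 t ht
      have ih4' : ∀ x ∈ Finsupp.supported R R {t : T | deg t < n}, H (n + 1) x = H n x :=
        ext n (H (n + 1)) (H n) ih4
      have ih1' : ∀ x ∈ Finsupp.supported R R {t : T | deg t + 1 = n}, H n x ∈ Vn n := by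
        intro x hx
        rw [Finsupp.mem_supported] at hx
        have h1 : x = x.sum fun t a => a • Finsupp.single t (1 : R) := by
          conv_lhs => rw [← Finsupp.sum_single x]
          refine Finsupp.sum_congr fun t _ => ?_
          simp
        rw [h1, Finsupp.sum, map_sum]
        refine Submodule.sum_mem _ fun t ht => ?_
        rw [map_smul]
        have h2 : deg t + 1 = n := hx ht
        have h3 := ih1 t (by omega)
        rw [h2] at h3
        exact Submodule.smul_mem _ _ h3
      -- the new elements
      let X : T → V := fun t => φ (Finsupp.single (r t) 1) - H n (dF (Finsupp.single (r t) 1))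
      have hnew : ∀ t, deg t = n → H (n + 1) (Finsupp.single t 1) = ρ (γ t) (K (X t)) := by
        intro t ht
        rw [hHs, if_pos ht]
      have hold : ∀ t, deg t ≠ n → H (n + 1) (Finsupp.single t 1) = H n (Finsupp.single t 1) := by
        intro t ht
        rw [hHs, if_neg ht]
      have hXn : ∀ t, deg t = n → X t ∈ Vn n := by
        intro t ht
        refine Submodule.sub_mem _ ?_ (ih1' _ ?_)
        · have := hφn (r t)
          rwa [hdr, ht] at this
        · have := hdF (r t)
          rwa [hdr, ht] at this
      have hdX : ∀ t, deg t = n → dV (K (X t)) = X t := by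
        intro t ht
        rcases Nat.eq_zero_or_pos n with hn | hn
        · have h1 : dF (Finsupp.single (r t) (1 : R)) = 0 := by
            have h2 := hdF (r t)
            rw [Finsupp.mem_supported] at h2
            rw [← Finsupp.support_eq_empty, Finset.eq_empty_iff_forall_notMem]
            intro t' ht'
            have h3 : deg t' + 1 = deg (r t) := h2 ht'
            rw [hdr, ht, hn] at h3
            exact absurd h3 (Nat.succ_ne_zero _)
          have h2 : X t = φ (Finsupp.single (r t) 1) := by
            simp only [X, h1, map_zero, sub_zero]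
          rw [h2]
          exact hK0 _ (by rw [hdr, ht, hn])
        · obtain ⟨m, rfl⟩ : ∃ m, n = m + 1 := ⟨n - 1, by omega⟩
          have h1 := hK m (X t) (hXn t ht)
          have h2 : dV (X t) = 0 := by
            simp only [X, map_sub]
            have h3 := ih3' (dF (Finsupp.single (r t) 1)) (hdFlt _ _ (by rw [hdr, ht]))
            rw [hdd, map_zero, add_zero] at h3
            rw [h3, hφd, sub_self]
          rwa [h2, map_zero, add_zero] at h1
      have hrt : ∀ t, Finsupp.single t (1 : R) = tr R (γ t) (Finsupp.single (r t) 1) := by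
        intro t
        rw [tr_single, hγ]
      refine ⟨?_, ?_, ?_, ?_⟩
      · intro t ht
        by_cases h : deg t = n
        · rw [hnew t h]
          have h1 := hKn _ _ (hXn t h)
          rw [h]
          exact hρn _ _ _ h1
        · rw [hold t h]
          exact ih1 t (by omega)
      · intro g t ht
        by_cases h : deg t = n
        · rw [hnew t h, hnew (g • t) (by rw [hdeg, h]), hγm]
          have : X (g • t) = X t := by simp only [X, hr]
          rw [this, hρm]
        · rw [hold t h, hold (g • t) (by rw [hdeg]; exact h)]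
          exact ih2 g t (by omega)
      · intro t ht
        by_cases h : deg t = n
        · rw [ih4' _ (hdFlt t n (by omega)), hnew t h, hdVe, hdX t h]
          have h1 : H n (dF (Finsupp.single t 1)) =
              ρ (γ t) (H n (dF (Finsupp.single (r t) 1))) := by
            rw [hrt t, hdFe, ih2' _ _ (hdFlt _ _ (by rw [hdr, h]))]
          rw [h1, ← map_add]
          have h2 : X t + H n (dF (Finsupp.single (r t) 1)) = φ (Finsupp.single (r t) 1) := by
            simp only [X]
            abel
          rw [h2, ← hφe, ← hrt]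
        · rw [hold t h, ih4' _ (hdFlt t n (by omega))]
          exact ih3 t (by omega)
      · intro t ht
        rw [hHs (n + 1), if_neg (by omega)]
  -- the limit
  let h : (T →₀ R) →ₗ[R] V :=
    Finsupp.linearCombination R fun t => H (deg t + 1) (Finsupp.single t 1)
  have hst : ∀ k t, H (deg t + 1 + k) (Finsupp.single t 1) = H (deg t + 1) (Finsupp.single t 1) := by
    intro k t
    induction k with
    | zero => rfl
    | succ k ih => rw [← add_assoc, (key (deg t + 1 + k)).2.2.2 t (by omega), ih]
  have hh : ∀ n t, deg t < n → h (Finsupp.single t 1) = H n (Finsupp.single t 1) := by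
    intro n t ht
    obtain ⟨k, rfl⟩ : ∃ k, n = deg t + 1 + k := ⟨n - (deg t + 1), by omega⟩
    rw [hst]
    simp [h]
  have hh' : ∀ n, ∀ x ∈ Finsupp.supported R R {t : T | deg t < n}, h x = H n x :=
    fun n => ext n h (H n) (hh n)
  refine ⟨h, ?_, ?_, ?_⟩
  · intro g
    have : h.comp (tr R g) = (ρ g).comp h := by
      refine Finsupp.lhom_ext' fun t => LinearMap.ext_ring ?_
      change h (tr R g (Finsupp.single t 1)) = ρ g (h (Finsupp.single t 1))
      rw [tr_single, hh (deg t + 1) t (Nat.lt_succ_self _),
        hh (deg t + 1) (g • t) (by rw [hdeg]; exact Nat.lt_succ_self _)]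
      exact (key (deg t + 1)).2.1 g t (Nat.lt_succ_self _)
    exact fun x => LinearMap.congr_fun this x
  · intro t
    rw [hh (deg t + 1) t (Nat.lt_succ_self _)]
    exact (key (deg t + 1)).1 t (Nat.lt_succ_self _)
  · have : dV.comp h + h.comp dF = φ := by
      refine Finsupp.lhom_ext' fun t => LinearMap.ext_ring ?_
      change dV (h (Finsupp.single t 1)) + h (dF (Finsupp.single t 1)) = φ (Finsupp.single t 1)
      rw [hh (deg t + 1) t (Nat.lt_succ_self _), hh' (deg t + 1) _ (hdFlt t _ (by omega))]
      exact (key (deg t + 1)).2.2.1 t (Nat.lt_succ_self _)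
    exact fun x => LinearMap.congr_fun this x

end Pool.Agent.W_3f1825_top
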