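import Pool.Agent.W_3f1825_top.TBase
import Pool.Agent.W_3f1825_top.Htpy

set_option autoImplicit false

/-! Averaging over an infinite cyclic group: the `l¹` step. -/

open Filter Topology

namespace Pool.Agent.W_3f1825_top

variable {S : Type} (ζ : Equiv.Perm S)

/-- translate the entries of a tuple -/
def shf {m : ℕ} (N : ℕ) (k : Fin (m + 1) → Fin N) (v : Fin (m + 1) → S) : Fin (m + 1) → S :=
  fun i => (ζ ^ (k i : ℕ)) (v i)

/-- the averaging operator -/
noncomputable def avg (N : ℕ) : TC ℝ S →ₗ[ℝ] TC ℝ S :=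
  Finsupp.linearCombination ℝ fun s : Tu S =>
    ((N : ℝ) ^ (s.1 + 1))⁻¹ • ∑ k : Fin (s.1 + 1) → Fin N,
      Finsupp.single (⟨s.1, shf ζ N k s.2⟩ : Tu S) (1 : ℝ)

theorem avg_single (N : ℕ) {m : ℕ} (v : Fin (m + 1) → S) :
    avg ζ N (Finsupp.single (⟨m, v⟩ : Tu S) 1) = ((N : ℝ) ^ (m + 1))⁻¹ •
      ∑ k : Fin (m + 1) → Fin N, Finsupp.single (⟨m, shf ζ N k v⟩ : Tu S) (1 : ℝ) := by
  simp [avg]

theorem avg_mem (N : ℕ) {m : ℕ} {c : TC ℝ S} (hc : c ∈ tin ℝ S m) : avg ζ N c ∈ tin ℝ S m := by
  refine map_mem_of_tin ℝ (avg ζ N) _ ?_ hc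
  intro v
  rw [avg_single]
  exact Submodule.smul_mem _ _ (Submodule.sum_mem _ fun k _ => single_mem_tin ℝ _ _)

theorem sum_removeNth {α : Type} [AddCommMonoid α] {m N : ℕ} (i : Fin (m + 2))
    (F : (Fin (m + 1) → Fin N) → α) :
    ∑ k : Fin (m + 2) → Fin N, F (fun j => k (i.succAbove j)) =
      N • ∑ k : Fin (m + 1) → Fin N, F k := by
  rw [← (Fin.insertNthEquiv (fun _ => Fin N) i).sum_comp, Fintype.sum_prod_type]
  simp [Fin.insertNthEquiv]

theorem bdT_avg {N : ℕ} (hN : 0 < N) (c : TC ℝ S) : bdT ℝ (avg ζ N c) = avg ζ N (bdT ℝ c) := by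
  have : (bdT ℝ).comp (avg ζ N) = (avg ζ N).comp (bdT ℝ) := by
    refine Finsupp.lhom_ext' fun t => LinearMap.ext_ring ?_
    obtain ⟨m, v⟩ := t
    change bdT ℝ (avg ζ N (Finsupp.single (⟨m, v⟩ : Tu S) 1)) =
      avg ζ N (bdT ℝ (Finsupp.single (⟨m, v⟩ : Tu S) 1))
    rw [avg_single, map_smul, map_sum]
    cases m with
    | zero => simp
    | succ m =>
      simp only [bdT_single_succ, one_smul]
      rw [map_sum, Finset.sum_comm, Finset.smul_sum]
      refine Finset.sum_congr rfl fun i _ => ?_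
      have h1 : ∀ k : Fin (m + 1 + 1) → Fin N, (fun j => shf ζ N k v (i.succAbove j)) =
          shf ζ N (fun j => k (i.succAbove j)) (fun j => v (i.succAbove j)) := fun k => rfl
      simp only [h1]
      rw [sum_removeNth i (fun k => Finsupp.single (⟨m, shf ζ N k (fun j => v (i.succAbove j))⟩ : Tu S)
        ((-1 : ℝ) ^ (i : ℕ)))]
      have h2 : Finsupp.single (⟨m, fun j => v (i.succAbove j)⟩ : Tu S) ((-1 : ℝ) ^ (i : ℕ)) =
          ((-1 : ℝ) ^ (i : ℕ)) • Finsupp.single (⟨m, fun j => v (i.succAbove j)⟩ : Tu S) (1 : ℝ) := by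
        simp
      rw [h2, map_smul, avg_single]
      have h3 : ∀ k : Fin (m + 1) → Fin N,
          Finsupp.single (⟨m, shf ζ N k (fun j => v (i.succAbove j))⟩ : Tu S) ((-1 : ℝ) ^ (i : ℕ)) =
          ((-1 : ℝ) ^ (i : ℕ)) • Finsupp.single
            (⟨m, shf ζ N k (fun j => v (i.succAbove j))⟩ : Tu S) (1 : ℝ) := by
        intro k
        simp
      simp only [h3]
      rw [← Finset.smul_sum, ← Nat.cast_smul_eq_nsmul ℝ, smul_smul, smul_smul, smul_smul]
      congr 1
      have hN' : (N : ℝ) ≠ 0 := by positivity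
      field_simp
      ring
  exact LinearMap.congr_fun this c

/-- chains with small averages -/
def sml (c : TC ℝ S) : Prop := Tendsto (fun N : ℕ => nrm (avg ζ N c)) atTop (𝓝 0)

theorem sml_zero : sml ζ (0 : TC ℝ S) := by
  simp only [sml, map_zero, nrm_zero]
  exact tendsto_const_nhds

theorem sml_add {a b : TC ℝ S} (ha : sml ζ a) (hb : sml ζ b) : sml ζ (a + b) := by
  unfold sml at *
  have h := ha.add hb
  rw [add_zero] at h
  refine squeeze_zero (fun N => nrm_nonneg _) (fun N => ?_) h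
  rw [map_add]
  exact nrm_add_le _ _

theorem sml_smul {a : TC ℝ S} (r : ℝ) (ha : sml ζ a) : sml ζ (r • a) := by
  unfold sml at *
  have h := ha.const_mul |r|
  rw [mul_zero] at h
  refine squeeze_zero (fun N => nrm_nonneg _) (fun N => ?_) h
  rw [map_smul, nrm_smul]

theorem sml_neg {a : TC ℝ S} (ha : sml ζ a) : sml ζ (-a) := by
  have := sml_smul ζ (-1) ha
  simpa using this

/-- two tuples whose difference is small -/
def smr {m : ℕ} (v w : Fin (m + 1) → S) : Prop :=
  sml ζ (Finsupp.single (⟨m, w⟩ : Tu S) 1 - Finsupp.single (⟨m, v⟩ : Tu S) 1)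

theorem smr_refl {m : ℕ} (v : Fin (m + 1) → S) : smr ζ v v := by
  unfold smr
  rw [sub_self]
  exact sml_zero ζ

theorem smr_symm {m : ℕ} {v w : Fin (m + 1) → S} (h : smr ζ v w) : smr ζ w v := by
  unfold smr at *
  have := sml_neg ζ h
  rwa [neg_sub] at this

theorem smr_trans {m : ℕ} {u v w : Fin (m + 1) → S} (h : smr ζ u v) (h' : smr ζ v w) :
    smr ζ u w := by
  unfold smr at *
  have := sml_add ζ h h'
  convert this using 1
  abel

theorem sum_insertNth {α : Type} [AddCommMonoid α] {m N : ℕ} (i : Fin (m + 1))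
    (F : (Fin (m + 1) → Fin N) → α) :
    ∑ k : Fin (m + 1) → Fin N, F k =
      ∑ k : Fin m → Fin N, ∑ a : Fin N, F (i.insertNth a k) := by
  rw [← (Fin.insertNthEquiv (fun _ => Fin N) i).sum_comp, Fintype.sum_prod_type, Finset.sum_comm]
  rfl

/-- the basic estimate -/
theorem smr_one {m : ℕ} (v : Fin (m + 1) → S) (i : Fin (m + 1)) :
    smr ζ v (Function.update v i (ζ (v i))) := by
  have key : ∀ N : ℕ, 0 < N → nrm (avg ζ N (Finsupp.single (⟨m, Function.update v i (ζ (v i))⟩ : Tu S) 1 -
      Finsupp.single (⟨m, v⟩ : Tu S) 1)) ≤ 2 / N := by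
    intro N hN
    have hN' : (0 : ℝ) < N := by exact_mod_cast hN
    rw [map_sub, avg_single, avg_single, ← smul_sub, nrm_smul, sum_insertNth i, sum_insertNth i,
      ← Finset.sum_sub_distrib]
    have h1 : ∀ k : Fin m → Fin N, nrm ((∑ a : Fin N, Finsupp.single (⟨m,
        shf ζ N (i.insertNth a k) (Function.update v i (ζ (v i)))⟩ : Tu S) (1 : ℝ)) -
        ∑ a : Fin N, Finsupp.single (⟨m, shf ζ N (i.insertNth a k) v⟩ : Tu S) (1 : ℝ)) ≤ 2 := by
      intro k
      let w : ℕ → Tu S := fun a => ⟨m, i.insertNth ((ζ ^ a) (v i))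
        (fun j => (ζ ^ (k j : ℕ)) (v (i.succAbove j)))⟩
      have h2 : ∀ a : Fin N, (⟨m, shf ζ N (i.insertNth a k) v⟩ : Tu S) = w a := by
        intro a
        simp only [w]
        congr 1
        rw [Fin.eq_insertNth_iff]
        refine ⟨?_, ?_⟩
        · simp [shf]
        · funext j
          simp [shf, Fin.removeNth]
      have h3 : ∀ a : Fin N, (⟨m, shf ζ N (i.insertNth a k) (Function.update v i (ζ (v i)))⟩ : Tu S) =
          w (a + 1) := by
        intro a
        simp only [w]
        congr 1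
        rw [Fin.eq_insertNth_iff]
        refine ⟨?_, ?_⟩
        · simp [shf, pow_succ]
        · funext j
          simp [shf, Fin.removeNth]
      simp only [h2, h3]
      rw [Fin.sum_univ_eq_sum_range (fun a => Finsupp.single (w (a + 1)) (1 : ℝ)) N,
        Fin.sum_univ_eq_sum_range (fun a => Finsupp.single (w a) (1 : ℝ)) N,
        ← Finset.sum_sub_distrib, Finset.sum_range_sub (fun a => Finsupp.single (w a) (1 : ℝ)) N]
      have h4 := nrm_add_le (Finsupp.single (w N) (1 : ℝ)) (-Finsupp.single (w 0) (1 : ℝ))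
      rw [nrm_neg, nrm_single, nrm_single, ← sub_eq_add_neg] at h4
      refine h4.trans ?_
      norm_num
    have h5 := (nrm_sum_le Finset.univ (fun k : Fin m → Fin N =>
      (∑ a : Fin N, Finsupp.single (⟨m,
        shf ζ N (i.insertNth a k) (Function.update v i (ζ (v i)))⟩ : Tu S) (1 : ℝ)) -
        ∑ a : Fin N, Finsupp.single (⟨m, shf ζ N (i.insertNth a k) v⟩ : Tu S) (1 : ℝ))).trans
      (Finset.sum_le_sum fun k _ => h1 k)
    rw [Finset.sum_const, Finset.card_univ, Fintype.card_fun, Fintype.card_fin, Fintype.card_fin,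
      nsmul_eq_mul] at h5
    rw [abs_of_pos (by positivity)]
    refine (mul_le_mul_of_nonneg_left h5 (by positivity)).trans (le_of_eq ?_)
    push_cast
    field_simp
    ring
  unfold smr sml
  have h2 : Tendsto (fun N : ℕ => (2 : ℝ) / N) atTop (𝓝 0) := tendsto_const_div_atTop_nhds_zero_nat 2
  refine squeeze_zero' (Eventually.of_forall fun N => nrm_nonneg _) ?_ h2
  filter_upwards [eventually_gt_atTop 0] with N hN
  exact key N hN

theorem smr_pow {m : ℕ} (v : Fin (m + 1) → S) (i : Fin (m + 1)) (a : ℕ) :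
    smr ζ v (Function.update v i ((ζ ^ a) (v i))) := by
  induction a with
  | zero => simpa using smr_refl ζ v
  | succ a ih =>
    refine smr_trans ζ ih ?_
    have h := smr_one ζ (Function.update v i ((ζ ^ a) (v i))) i
    rw [Function.update_idem, Function.update_self] at h
    rwa [pow_succ', Equiv.Perm.mul_apply]

theorem smr_zpow {m : ℕ} (v : Fin (m + 1) → S) (i : Fin (m + 1)) (a : ℤ) :
    smr ζ v (Function.update v i ((ζ ^ a) (v i))) := by
  obtain ⟨n, rfl | rfl⟩ := a.eq_nat_or_neg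
  · rw [zpow_natCast]
    exact smr_pow ζ v i n
  · have h := smr_pow ζ (Function.update v i ((ζ ^ (-(n : ℤ))) (v i))) i n
    rw [Function.update_idem, Function.update_self] at h
    have h1 : (ζ ^ n) ((ζ ^ (-(n : ℤ))) (v i)) = v i := by
      rw [← Equiv.Perm.mul_apply, ← zpow_natCast, ← zpow_add]
      simp
    rw [h1, Function.update_eq_self] at h
    exact smr_symm ζ h

theorem smr_all {m : ℕ} (v w : Fin (m + 1) → S) (h : ∀ i, ∃ a : ℤ, w i = (ζ ^ a) (v i)) :
    smr ζ v w := by
  have key : ∀ j : ℕ, smr ζ v (fun i => if (i : ℕ) < j then w i else v i) := by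
    intro j
    induction j with
    | zero => simpa using smr_refl ζ v
    | succ j ih =>
      by_cases hj : j < m + 1
      · refine smr_trans ζ ih ?_
        obtain ⟨a, ha⟩ := h ⟨j, hj⟩
        have h1 := smr_zpow ζ (fun i : Fin (m + 1) => if (i : ℕ) < j then w i else v i) ⟨j, hj⟩ a
        convert h1 using 1
        funext i
        by_cases hi : i = ⟨j, hj⟩
        · subst hi
          simp [ha]
        · rw [Function.update_of_ne hi]
          have hi' : (i : ℕ) ≠ j := fun h => hi (Fin.ext h)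
          by_cases h2 : (i : ℕ) < j
          · simp [h2, Nat.lt_succ_of_lt h2]
          · have h3 : ¬ (i : ℕ) < j + 1 := by omega
            simp [h2, h3]
      · convert ih using 1
        funext i
        have := i.2
        have h2 : (i : ℕ) < j := by omega
        simp [h2, Nat.lt_succ_of_lt h2]
  have h := key (m + 1)
  convert h using 1
  funext i
  rw [if_pos i.2]

theorem sml_of_map_eq_zero {B : Type} {π : S → B} (hπ : Function.Surjective π)
    (hπζ : ∀ s s', π s = π s' → ∃ a : ℤ, s' = (ζ ^ a) s) {c : TC ℝ S} (hc : mpT ℝ π c = 0) :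
    sml ζ c := by
  obtain ⟨σ, hσ⟩ := hπ.hasRightInverse
  have key : ∀ c : TC ℝ S, sml ζ (c - mpT ℝ σ (mpT ℝ π c)) := by
    intro c
    induction c using Finsupp.induction_linear with
    | zero => simpa using sml_zero ζ
    | add a b ha hb =>
      rw [map_add, map_add]
      have := sml_add ζ ha hb
      convert this using 1
      abel
    | single s r =>
      obtain ⟨m, v⟩ := s
      rw [mpT_mpT, mpT_single]
      have h1 : smr ζ ((σ ∘ π) ∘ v) v := by
        refine smr_all ζ _ _ fun i => ?_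
        exact hπζ _ _ (hσ (π (v i)))
      have h2 := sml_smul ζ r h1
      rw [smul_sub, Finsupp.smul_single, Finsupp.smul_single, smul_eq_mul, mul_one] at h2
      exact h2
  have h := key c
  rwa [hc, map_zero, sub_zero] at h

end Pool.Agent.W_3f1825_top
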