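import Pool.Agent.W_3f1825_top.MV

set_option autoImplicit false

/-! Transfer of vanishing between subsets and subspaces, and along homeomorphisms. -/

namespace Pool.Agent.W_3f1825_top

open Pool.Agent.W_MP_6d5819_gt

variable {R : Type} [CommRing R] {X Y : Type} [TopologicalSpace X] [TopologicalSpace Y]

theorem push_injective {f : C(X, Y)} (hf : Function.Injective f) :
    Function.Injective (push R f) := by
  have h : Function.Injective (pushSimp f) := by
    rintro ⟨n, σ⟩ ⟨m, τ⟩ h
    obtain rfl : n = m := congrArg Sigma.fst h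
    have h1 : f.comp σ = f.comp τ := by
      simpa [pushSimp] using h
    congr 1
    ext s
    exact hf (DFunLike.congr_fun h1 s)
  intro a b hab
  exact Finsupp.mapDomain_injective h (by simpa [push] using hab)

theorem push_mem_chIn (f : C(X, Y)) {n : ℕ} {U : Set X} {V : Set Y} (h : ∀ x ∈ U, f x ∈ V)
    {c : Ch R X} (hc : c ∈ chIn R n U) : push R f c ∈ chIn R n V := by
  refine chIn_induction R (P := fun c => push R f c ∈ chIn R n V) (by simp)
    (fun a b _ _ ha hb => by rw [map_add]; exact Submodule.add_mem _ ha hb) ?_ c hc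
  intro σ hσ r
  rw [push_single]
  refine single_mem_chIn R (f.comp σ) ?_ r
  rintro _ ⟨s, rfl⟩
  exact h _ (hσ ⟨s, rfl⟩)

/-- inclusion of a subset -/
def inc (W : Set X) : C(W, X) := ⟨Subtype.val, continuous_subtype_val⟩

theorem exists_lift_inc {W : Set X} {n : ℕ} {c : Ch R X} (hc : c ∈ chIn R n W) :
    ∃ c' ∈ chIn R n (Set.univ : Set W), push R (inc W) c' = c := by
  refine chIn_induction R (P := fun c => ∃ c' ∈ chIn R n (Set.univ : Set W),
    push R (inc W) c' = c) ⟨0, Submodule.zero_mem _, by simp⟩ ?_ ?_ c hc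
  · rintro a b _ _ ⟨a', ha', rfl⟩ ⟨b', hb', rfl⟩
    exact ⟨a' + b', Submodule.add_mem _ ha' hb', by rw [map_add]⟩
  · intro σ hσ r
    let σ' : C(Simp (n + 1), W) := ⟨fun s => ⟨σ s, hσ ⟨s, rfl⟩⟩, by
      exact Continuous.subtype_mk σ.continuous _⟩
    refine ⟨Finsupp.single (⟨n, σ'⟩ : Sing W) r, single_mem_chIn R σ' (Set.subset_univ _) r, ?_⟩
    rw [push_single]
    rfl

theorem Van_of_sub {W : Set X} {n : ℕ} (h : Van R n (Set.univ : Set W)) : Van R n W := by
  intro c hc
  obtain ⟨hc1, hc2⟩ := Submodule.mem_inf.1 hc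
  rw [LinearMap.mem_ker] at hc2
  obtain ⟨c', hc', rfl⟩ := exists_lift_inc hc1
  have h1 : bd R c' = 0 := by
    apply push_injective (R := R) (f := inc W) Subtype.val_injective
    rw [← bd_push, hc2, map_zero]
  obtain ⟨w, hw, hw'⟩ := h (Submodule.mem_inf.2 ⟨hc', by rw [LinearMap.mem_ker, h1]⟩)
  refine ⟨push R (inc W) w, push_mem_chIn (inc W) (fun x _ => x.2) hw, ?_⟩
  rw [bd_push, hw']

theorem Van_sub {W : Set X} {n : ℕ} (h : Van R n W) : Van R n (Set.univ : Set W) := by
  intro c hc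
  obtain ⟨hc1, hc2⟩ := Submodule.mem_inf.1 hc
  rw [LinearMap.mem_ker] at hc2
  have h1 : push R (inc W) c ∈ cyc R n W := by
    refine Submodule.mem_inf.2 ⟨push_mem_chIn (inc W) (fun x _ => x.2) hc1, ?_⟩
    rw [LinearMap.mem_ker, bd_push, hc2, map_zero]
  obtain ⟨w, hw, hw'⟩ := h h1
  obtain ⟨w', hw1, rfl⟩ := exists_lift_inc hw
  refine ⟨w', hw1, ?_⟩
  apply push_injective (R := R) (f := inc W) Subtype.val_injective
  rw [← bd_push, hw']

theorem Van_homeo (e : X ≃ₜ Y) {n : ℕ} (h : Van R n (Set.univ : Set Y)) :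
    Van R n (Set.univ : Set X) := by
  intro c hc
  obtain ⟨hc1, hc2⟩ := Submodule.mem_inf.1 hc
  rw [LinearMap.mem_ker] at hc2
  let f : C(X, Y) := ⟨e, e.continuous⟩
  let g : C(Y, X) := ⟨e.symm, e.symm.continuous⟩
  have hgf : g.comp f = ContinuousMap.id X := by
    ext x
    exact e.symm_apply_apply x
  have h1 : push R f c ∈ cyc R n (Set.univ : Set Y) := by
    refine Submodule.mem_inf.2 ⟨push_mem_chIn f (fun x _ => Set.mem_univ _) hc1, ?_⟩
    rw [LinearMap.mem_ker, bd_push, hc2, map_zero]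
  obtain ⟨w, hw, hw'⟩ := h h1
  refine ⟨push R g w, push_mem_chIn g (fun x _ => Set.mem_univ _) hw, ?_⟩
  rw [bd_push, hw', push_push, hgf, push_id]

theorem Van_homeo_sets {W : Set X} {V : Set Y} (e : W ≃ₜ V) {n : ℕ} (h : Van R n V) :
    Van R n W := Van_of_sub (Van_homeo e (Van_sub h))

/-- open subsets of chart domains -/
theorem Van_chart (e : OpenPartialHomeomorph X Y) {U : Set X} (hU : U ⊆ e.source) {n : ℕ}
    (h : Van R n (e '' U)) : Van R n U := by
  refine Van_homeo_sets (Y := Y) (V := e '' U) ?_ h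
  exact {
    toFun := fun x => ⟨e x, ⟨x, x.2, rfl⟩⟩
    invFun := fun y => ⟨e.symm y, by
      obtain ⟨_, ⟨x, hx, rfl⟩⟩ := y
      change e.symm (e x) ∈ U
      rwa [e.left_inv (hU hx)]⟩
    left_inv := fun x => Subtype.ext (e.left_inv (hU x.2))
    right_inv := by
      rintro ⟨_, ⟨x, hx, rfl⟩⟩
      apply Subtype.ext
      change e (e.symm (e x)) = e x
      rw [e.left_inv (hU hx)]
    continuous_toFun := by
      refine Continuous.subtype_mk ?_ _
      exact e.continuousOn.comp_continuous continuous_subtype_val fun x => hU x.2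
    continuous_invFun := by
      refine Continuous.subtype_mk ?_ _
      refine e.continuousOn_symm.comp_continuous continuous_subtype_val ?_
      rintro ⟨_, ⟨x, hx, rfl⟩⟩
      exact e.map_source (hU hx) }

end Pool.Agent.W_3f1825_top
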