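import Pool.Agent.W_3f1825_top.Conv
import Pool.Agent.W_3f1825_top.Sub

set_option autoImplicit false

/-! Unions of thickened cubes. -/

namespace Pool.Agent.W_3f1825_top

open Pool.Agent.W_MP_6d5819_gt

variable {R : Type} [CommRing R] {d : ℕ}

/-- thickened box -/
def bx (δ : ℝ) (q : (Fin d → ℤ) × (Fin d → ℤ)) : Set (Fin d → ℝ) :=
  {x | ∀ j, δ * ((q.1 j : ℝ) - 1 / 3) < x j ∧ x j < δ * ((q.2 j : ℝ) + 1 / 3)}

/-- cubical cells -/
def IsCell (q : (Fin d → ℤ) × (Fin d → ℤ)) : Prop := ∀ j, q.1 j ≤ q.2 j ∧ q.2 j ≤ q.1 j + 1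

/-- dimension of a cell -/
def dm (q : (Fin d → ℤ) × (Fin d → ℤ)) : ℕ := (Finset.univ.filter fun j => q.1 j < q.2 j).card

/-- intersection of cells -/
def meet (q q' : (Fin d → ℤ) × (Fin d → ℤ)) : (Fin d → ℤ) × (Fin d → ℤ) :=
  (fun j => max (q.1 j) (q'.1 j), fun j => min (q.2 j) (q'.2 j))

theorem bx_inter {δ : ℝ} (hδ : 0 < δ) (q q' : (Fin d → ℤ) × (Fin d → ℤ)) :
    bx δ q ∩ bx δ q' = bx δ (meet q q') := by
  ext x
  simp only [Set.mem_inter_iff, bx, Set.mem_ofPred_eq, meet, ← forall_and]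
  refine forall_congr' fun j => ?_
  push_cast
  have h1 : δ * (max (q.1 j : ℝ) (q'.1 j) - 1 / 3) =
      max (δ * ((q.1 j : ℝ) - 1 / 3)) (δ * ((q'.1 j : ℝ) - 1 / 3)) := by
    rw [← mul_max_of_nonneg _ _ hδ.le, max_sub_sub_right]
  have h2 : δ * (min (q.2 j : ℝ) (q'.2 j) + 1 / 3) =
      min (δ * ((q.2 j : ℝ) + 1 / 3)) (δ * ((q'.2 j : ℝ) + 1 / 3)) := by
    rw [← mul_min_of_nonneg _ _ hδ.le, min_add_add_right]
  rw [h1, h2, max_lt_iff, lt_min_iff]
  tauto

theorem bx_eq_pi (δ : ℝ) (q : (Fin d → ℤ) × (Fin d → ℤ)) : bx δ q =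
    Set.pi Set.univ fun j => Set.Ioo (δ * ((q.1 j : ℝ) - 1 / 3)) (δ * ((q.2 j : ℝ) + 1 / 3)) := by
  ext x
  simp [bx]

theorem bx_isOpen (δ : ℝ) (q : (Fin d → ℤ) × (Fin d → ℤ)) : IsOpen (bx δ q) := by
  rw [bx_eq_pi]
  exact isOpen_set_pi Set.finite_univ fun j _ => isOpen_Ioo

theorem bx_convex (δ : ℝ) (q : (Fin d → ℤ) × (Fin d → ℤ)) : Convex ℝ (bx δ q) := by
  rw [bx_eq_pi]
  exact convex_pi fun j _ => convex_Ioo _ _

theorem bx_empty {δ : ℝ} (hδ : 0 < δ) {q : (Fin d → ℤ) × (Fin d → ℤ)}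
    (h : ¬ ∀ j, q.1 j ≤ q.2 j) : bx δ q = ∅ := by
  push Not at h
  obtain ⟨j, hj⟩ := h
  rw [Set.eq_empty_iff_forall_notMem]
  intro x hx
  obtain ⟨h1, h2⟩ := hx j
  have h3 : (q.2 j : ℝ) + 1 ≤ q.1 j := by exact_mod_cast hj
  nlinarith

theorem meet_cell {q q' : (Fin d → ℤ) × (Fin d → ℤ)} (hq : IsCell q)
    (h : ∀ j, (meet q q').1 j ≤ (meet q q').2 j) : IsCell (meet q q') := by
  intro j
  refine ⟨h j, ?_⟩
  have h1 := (hq j).2
  simp only [meet]
  have h2 := min_le_left (q.2 j) (q'.2 j)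
  have h3 := le_max_left (q.1 j) (q'.1 j)
  omega

theorem dm_meet_lt {q q' : (Fin d → ℤ) × (Fin d → ℤ)} (hq : IsCell q)
    (h : ∀ j, (meet q q').1 j ≤ (meet q q').2 j) (hne : meet q q' ≠ q) :
    dm (meet q q') < dm q := by
  have hsub : (Finset.univ.filter fun j => (meet q q').1 j < (meet q q').2 j) ⊆
      (Finset.univ.filter fun j => q.1 j < q.2 j) := by
    intro j
    simp only [Finset.mem_filter, Finset.mem_univ, true_and, meet]
    intro h1
    exact (le_max_left _ _).trans_lt (h1.trans_le (min_le_left _ _))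
  refine Finset.card_lt_card (Finset.ssubset_iff_subset_ne.2 ⟨hsub, ?_⟩)
  intro heq
  apply hne
  have key : ∀ j, (meet q q').1 j = q.1 j ∧ (meet q q').2 j = q.2 j := by
    intro j
    have h1 := hq j
    have h2 := h j
    have h3 : (meet q q').1 j < (meet q q').2 j ↔ q.1 j < q.2 j := by
      have := Finset.ext_iff.1 heq j
      simpa using this
    simp only [meet] at h2 h3 ⊢
    have h4 := min_le_left (q.2 j) (q'.2 j)
    have h5 := le_max_left (q.1 j) (q'.1 j)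
    by_cases h6 : q.1 j < q.2 j
    · have h7 := h3.2 h6
      omega
    · omega
  exact Prod.ext (funext fun j => (key j).1) (funext fun j => (key j).2)

/-- union of thickened boxes -/
def bu (δ : ℝ) (S : Finset ((Fin d → ℤ) × (Fin d → ℤ))) : Set (Fin d → ℝ) := ⋃ q ∈ S, bx δ q

theorem mem_bu {δ : ℝ} {S : Finset ((Fin d → ℤ) × (Fin d → ℤ))} {x : Fin d → ℝ} :
    x ∈ bu δ S ↔ ∃ q ∈ S, x ∈ bx δ q := by simp [bu]

theorem bu_isOpen (δ : ℝ) (S : Finset ((Fin d → ℤ) × (Fin d → ℤ))) : IsOpen (bu δ S) :=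
  isOpen_biUnion fun q _ => bx_isOpen δ q

open Classical in
/-- all intersections -/
noncomputable def mt (S T : Finset ((Fin d → ℤ) × (Fin d → ℤ))) :
    Finset ((Fin d → ℤ) × (Fin d → ℤ)) :=
  ((S ×ˢ T).image fun p => meet p.1 p.2).filter fun q => ∀ j, q.1 j ≤ q.2 j

theorem bu_inter {δ : ℝ} (hδ : 0 < δ) (S T : Finset ((Fin d → ℤ) × (Fin d → ℤ))) :
    bu δ S ∩ bu δ T = bu δ (mt S T) := by
  classical
  ext x
  simp only [Set.mem_inter_iff, mem_bu, mt, Finset.mem_filter, Finset.mem_image,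
    Finset.mem_product]
  constructor
  · rintro ⟨⟨q, hq, hx⟩, ⟨q', hq', hx'⟩⟩
    have h : x ∈ bx δ (meet q q') := by rw [← bx_inter hδ]; exact ⟨hx, hx'⟩
    refine ⟨meet q q', ⟨⟨(q, q'), ⟨hq, hq'⟩, rfl⟩, ?_⟩, h⟩
    by_contra hcon
    rw [bx_empty hδ hcon] at h
    exact h
  · rintro ⟨_, ⟨⟨⟨q, q'⟩, ⟨hq, hq'⟩, rfl⟩, -⟩, hx⟩
    change x ∈ bx δ (meet q q') at hx
    rw [← bx_inter hδ] at hx
    exact ⟨⟨q, hq, hx.1⟩, ⟨q', hq', hx.2⟩⟩

theorem Van_bx (δ : ℝ) (q : (Fin d → ℤ) × (Fin d → ℤ)) (i : ℕ) : Van R (i + 1) (bx δ q) :=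
  Van_convex (bx_convex δ q) i

theorem Van_boxes {δ : ℝ} (hδ : 0 < δ) (e : ℕ) : ∀ S : Finset ((Fin d → ℤ) × (Fin d → ℤ)),
    (∀ q ∈ S, IsCell q ∧ dm q < e) → ∀ i, e ≤ i → Van R i (bu δ S) := by
  classical
  induction e with
  | zero =>
    intro S hS i _
    have : bu δ S = ∅ := by
      rw [Set.eq_empty_iff_forall_notMem]
      intro x hx
      obtain ⟨q, hq, -⟩ := mem_bu.1 hx
      exact absurd (hS q hq).2 (Nat.not_lt_zero _)
    rw [this]
    exact Van_empty i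
  | succ e ih =>
    intro S
    induction S using Finset.induction_on with
    | empty =>
      intro _ i _
      have : bu δ (∅ : Finset ((Fin d → ℤ) × (Fin d → ℤ))) = ∅ := by simp [bu]
      rw [this]
      exact Van_empty i
    | insert q S' hqS ihS =>
      intro hS i hi
      have hS' : ∀ q ∈ S', IsCell q ∧ dm q < e + 1 := fun p hp =>
        hS p (Finset.mem_insert_of_mem hp)
      obtain ⟨hqc, hqd⟩ := hS q (Finset.mem_insert_self _ _)
      have hbu : bu δ (insert q S') = bx δ q ∪ bu δ S' := by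
        ext x
        simp [mem_bu]
      obtain ⟨i', rfl⟩ : ∃ i', i = i' + 1 := ⟨i - 1, by omega⟩
      by_cases h : ∃ q' ∈ S', meet q q' = q
      · obtain ⟨q', hq', hqq⟩ := h
        have h1 : bx δ q ∪ bu δ S' = bu δ S' := by
          rw [Set.union_eq_right]
          intro x hx
          rw [← hqq, ← bx_inter hδ] at hx
          exact mem_bu.2 ⟨q', hq', hx.2⟩
        rw [hbu, h1]
        exact ihS hS' _ hi
      · push Not at h
        rw [hbu]
        refine Van_union (bx_isOpen δ q) (bu_isOpen δ S') (Van_bx δ q i') (ihS hS' _ hi) ?_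
        have h2 : bx δ q ∩ bu δ S' = bu δ (mt {q} S') := by
          rw [← bu_inter hδ]
          congr 1
          ext x
          simp [mem_bu]
        rw [h2]
        refine ih _ ?_ i' (by omega)
        intro r hr
        simp only [mt, Finset.mem_filter, Finset.mem_image, Finset.mem_product,
          Finset.mem_singleton] at hr
        obtain ⟨⟨⟨a, b⟩, ⟨ha, hb⟩, rfl⟩, hval⟩ := hr
        simp only at ha hb hval ⊢
        subst ha
        have h3 := dm_meet_lt hqc hval (h b hb)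
        exact ⟨meet_cell hqc hval, by omega⟩

end Pool.Agent.W_3f1825_top
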