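import Pool.Agent.W_MP_6d5819_gt.Subdiv

set_option autoImplicit false

/-! Mayer-Vietoris arguments for concrete singular chains. -/

namespace Pool.Agent.W_3f1825_top

open Pool.Agent.W_MP_6d5819_gt

variable {R : Type} [CommRing R] {X : Type} [TopologicalSpace X]

/-- vanishing of the homology of the subset `U` in degree `i` -/
def Van (R : Type) [CommRing R] {X : Type} [TopologicalSpace X] (i : ℕ) (U : Set X) : Prop :=
  cyc R i U ≤ bds R i U

theorem bd_comm_of_Sd {U : Set X} {i : ℕ} (P : Sd R X) {c : Ch R X} (hc : c ∈ cyc R i U)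
    (h : P.S c ∈ bds R i U) : c ∈ bds R i U := by
  obtain ⟨hc1, hc2⟩ := Submodule.mem_inf.1 hc
  rw [LinearMap.mem_ker] at hc2
  have h1 := P.homotopy c
  rw [hc2, map_zero, add_zero] at h1
  have h2 : c = bd R (P.T c) + P.S c := by rw [h1]; abel
  rw [h2]
  exact Submodule.add_mem _ ⟨P.T c, P.T_mem _ _ _ hc1, rfl⟩ h

theorem Van_union {U V : Set X} (hU : IsOpen U) (hV : IsOpen V) {i : ℕ}
    (h1 : Van R (i + 1) U) (h2 : Van R (i + 1) V) (h3 : Van R i (U ∩ V)) :
    Van R (i + 1) (U ∪ V) := by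
  intro c hc
  obtain ⟨hc1, hc2⟩ := Submodule.mem_inf.1 hc
  rw [LinearMap.mem_ker] at hc2
  obtain ⟨P, hP⟩ := exists_sd R hU hV hc1
  obtain ⟨a, ha, b, hb, hab⟩ := Submodule.mem_sup.1 hP
  refine bd_comm_of_Sd P hc ?_
  have h0 : bd R a + bd R b = 0 := by
    rw [← map_add, hab, P.bd_S, hc2, map_zero]
  have hda : bd R a ∈ cyc R i (U ∩ V) := by
    refine Submodule.mem_inf.2 ⟨?_, ?_⟩
    · rw [chIn_inter]
      refine Submodule.mem_inf.2 ⟨bd_mem_chIn R ha, ?_⟩
      rw [eq_neg_of_add_eq_zero_left h0]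
      exact Submodule.neg_mem _ (bd_mem_chIn R hb)
    · rw [LinearMap.mem_ker, bd_bd]
  obtain ⟨w, hw, hw'⟩ := h3 hda
  have hA : a - w ∈ cyc R (i + 1) U := by
    refine Submodule.mem_inf.2 ⟨Submodule.sub_mem _ ha (chIn_mono R Set.inter_subset_left hw), ?_⟩
    rw [LinearMap.mem_ker, map_sub, hw', sub_self]
  have hB : b + w ∈ cyc R (i + 1) V := by
    refine Submodule.mem_inf.2 ⟨Submodule.add_mem _ hb (chIn_mono R Set.inter_subset_right hw), ?_⟩
    rw [LinearMap.mem_ker, map_add, hw', add_comm, h0]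
  have h4 : P.S c = (a - w) + (b + w) := by rw [← hab]; abel
  rw [h4]
  refine Submodule.add_mem _ ?_ ?_
  · exact Submodule.map_mono (chIn_mono R Set.subset_union_left) (h1 hA)
  · exact Submodule.map_mono (chIn_mono R Set.subset_union_right) (h2 hB)

theorem Van_left {U V : Set X} (hU : IsOpen U) (hV : IsOpen V) {i : ℕ}
    (h1 : Van R i (U ∪ V)) (h2 : Van R i (U ∩ V)) : Van R i U := by
  intro c hc
  obtain ⟨hc1, hc2⟩ := Submodule.mem_inf.1 hc
  rw [LinearMap.mem_ker] at hc2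
  have hc' : c ∈ cyc R i (U ∪ V) :=
    Submodule.mem_inf.2 ⟨chIn_mono R Set.subset_union_left hc1, by rw [LinearMap.mem_ker, hc2]⟩
  obtain ⟨w, hw, hwc⟩ := h1 hc'
  obtain ⟨P, hP⟩ := exists_sd R hU hV hw
  obtain ⟨a, ha, b, hb, hab⟩ := Submodule.mem_sup.1 hP
  refine bd_comm_of_Sd P hc ?_
  have h3 : P.S c = bd R a + bd R b := by
    rw [← map_add, hab, P.bd_S, hwc]
  have hdb : bd R b ∈ cyc R i (U ∩ V) := by
    refine Submodule.mem_inf.2 ⟨?_, ?_⟩
    · rw [chIn_inter]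
      refine Submodule.mem_inf.2 ⟨?_, bd_mem_chIn R hb⟩
      have h4 : bd R b = P.S c - bd R a := by rw [h3]; abel
      rw [h4]
      exact Submodule.sub_mem _ (P.S_mem _ _ _ hc1) (bd_mem_chIn R ha)
    · rw [LinearMap.mem_ker, bd_bd]
  obtain ⟨v, hv, hv'⟩ := h2 hdb
  refine ⟨a + v, Submodule.add_mem _ ha (chIn_mono R Set.inter_subset_left hv), ?_⟩
  rw [map_add, hv', h3]

theorem Van_empty (i : ℕ) : Van R i (∅ : Set X) := by
  intro z hz
  have hz1 := (mem_chIn R).1 (Submodule.mem_inf.1 hz).1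
  have : z = 0 := by
    rw [← Finsupp.support_eq_empty, Finset.eq_empty_iff_forall_notMem]
    intro s hs
    exact (hz1 s hs).2 ⟨vtx 0, rfl⟩
  rw [this]
  exact Submodule.zero_mem _

end Pool.Agent.W_3f1825_top
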