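import Pool.Agent.W_MP_6d5819_gt.Cone
import Pool.Agent.W_3f1825_top.MV

set_option autoImplicit false

/-! Convex sets in charts are homologically trivial. -/

open scoped Topology

namespace Pool.Agent.W_3f1825_top

open Pool.Agent.W_MP_6d5819_gt

variable {R : Type} [CommRing R] {X : Type} [TopologicalSpace X]

/-- straight line contraction of a convex set in a chart -/
noncomputable def convCone {E : Type} [NormedAddCommGroup E] [NormedSpace ℝ E]
    (e : OpenPartialHomeomorph X E) {C : Set E} (hC : Convex ℝ C) (hCt : C ⊆ e.target) {p : E}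
    (hp : p ∈ C) : ConeData (e.source ∩ e ⁻¹' C) where
  H q := e.symm ((1 - q.2) • e q.1 + q.2 • p)
  cont := by
    refine e.continuousOn_symm.comp (t := e.target) ?_ ?_
    · refine ContinuousOn.add ?_ ?_
      · refine ContinuousOn.smul (by fun_prop) ?_
        exact e.continuousOn.comp continuousOn_fst fun q hq => hq.1.1
      · fun_prop
    · rintro ⟨z, τ⟩ ⟨hz, hτ⟩
      exact hCt (hC hz.2 hp (by linarith [hτ.2]) hτ.1 (by ring))
  maps := by
    intro z hz τ hτ
    have h1 : (1 - τ) • e z + τ • p ∈ C := hC hz.2 hp (by linarith [hτ.2]) hτ.1 (by ring)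
    refine ⟨e.map_target (hCt h1), ?_⟩
    change e (e.symm ((1 - τ) • e z + τ • p)) ∈ C
    rw [e.right_inv (hCt h1)]
    exact h1
  zero := by
    intro z hz
    simp only [sub_zero, one_smul, zero_smul, add_zero]
    exact e.left_inv hz.1
  one := by
    intro z hz
    refine Filter.Eventually.of_forall fun w => ?_
    simp

theorem Van_of_cone {U : Set X} (D : ConeData U) (n : ℕ) : Van R (n + 1) U := by
  intro c hc
  obtain ⟨hc1, hc2⟩ := Submodule.mem_inf.1 hc
  rw [LinearMap.mem_ker] at hc2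
  have h := D.bd_op R hc1
  rw [hc2, map_zero, add_zero] at h
  exact ⟨D.op R c, D.op_mem R hc1, h⟩

/-- convex sets of a normed space -/
theorem Van_convex {E : Type} [NormedAddCommGroup E] [NormedSpace ℝ E] {C : Set E}
    (hC : Convex ℝ C) (n : ℕ) : Van R (n + 1) C := by
  rcases C.eq_empty_or_nonempty with rfl | ⟨p, hp⟩
  · exact Van_empty _
  · have D := convCone (OpenPartialHomeomorph.refl E) hC (by simp) hp
    have h : (OpenPartialHomeomorph.refl E).source ∩ (OpenPartialHomeomorph.refl E) ⁻¹' C = C := by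
      simp
    rw [h] at D
    exact Van_of_cone D n

/-- good neighbourhoods -/
theorem exists_good {E : Type} [NormedAddCommGroup E] [NormedSpace ℝ E]
    (hX : ∀ x : X, ∃ e : OpenPartialHomeomorph X E, x ∈ e.source) (U : Set X) (hU : IsOpen U)
    (x : X) (hx : x ∈ U) : ∃ W : Set X, IsOpen W ∧ x ∈ W ∧ W ⊆ U ∧
      (∀ n, cyc R (n + 1) W ≤ bds R (n + 1) W) ∧
      ∃ Q : Submodule R (Ch R X), Q.FG ∧ chIn R 0 W ≤ Q ⊔ bds R 0 W := by
  obtain ⟨e, hxs⟩ := hX x
  have h1 : e.target ∩ e.symm ⁻¹' U ∈ 𝓝 (e x) := by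
    refine (e.isOpen_inter_preimage_symm hU).mem_nhds ⟨e.map_source hxs, ?_⟩
    change e.symm (e x) ∈ U
    rw [e.left_inv hxs]
    exact hx
  obtain ⟨r, hr, hball⟩ := Metric.mem_nhds_iff.1 h1
  have hball' : Metric.ball (e x) r ⊆ e.target := hball.trans Set.inter_subset_left
  let D := convCone e (convex_ball (e x) r) hball' (Metric.mem_ball_self hr)
  refine ⟨e.source ∩ e ⁻¹' Metric.ball (e x) r, e.isOpen_inter_preimage Metric.isOpen_ball,
    ⟨hxs, Metric.mem_ball_self hr⟩, ?_, fun n => Van_of_cone D n, ?_⟩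
  · rintro z ⟨hz1, hz2⟩
    have := (hball hz2).2
    change e.symm (e z) ∈ U at this
    rwa [e.left_inv hz1] at this
  · refine ⟨Submodule.span R {Finsupp.single (⟨0, ContinuousMap.const _ x⟩ : Sing X) (1 : R)},
      Submodule.fg_span (Set.finite_singleton _), ?_⟩
    intro c hc
    refine chIn_induction R (P := fun c => c ∈ Submodule.span R
      {Finsupp.single (⟨0, ContinuousMap.const _ x⟩ : Sing X) (1 : R)} ⊔
        bds R 0 (e.source ∩ e ⁻¹' Metric.ball (e x) r)) (Submodule.zero_mem _)
      (fun a b _ _ ha hb => Submodule.add_mem _ ha hb) ?_ c hc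
    intro σ hσ r'
    have h := D.bd_op_zero R hσ r'
    have hend : D.H (σ (vtx 0), 1) = x := by
      change e.symm ((1 - (1 : ℝ)) • e (σ (vtx 0)) + (1 : ℝ) • e x) = x
      rw [sub_self, zero_smul, one_smul, zero_add, e.left_inv hxs]
    rw [hend] at h
    have h2 : Finsupp.single (⟨0, σ⟩ : Sing X) r' =
        Finsupp.single (⟨0, ContinuousMap.const _ x⟩ : Sing X) r' +
          bd R (D.op R (Finsupp.single ⟨0, σ⟩ r')) := by
      rw [h]; abel
    rw [h2]
    refine Submodule.add_mem _ (Submodule.mem_sup_left ?_) (Submodule.mem_sup_right ?_)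
    · rw [show Finsupp.single (⟨0, ContinuousMap.const _ x⟩ : Sing X) r' =
        r' • Finsupp.single (⟨0, ContinuousMap.const _ x⟩ : Sing X) (1 : R) by
          rw [Finsupp.smul_single, smul_eq_mul, mul_one]]
      exact Submodule.smul_mem _ _ (Submodule.mem_span_singleton_self _)
    · exact ⟨_, D.op_mem R (single_mem_chIn R σ hσ r'), rfl⟩

end Pool.Agent.W_3f1825_top
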