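import Pool.Agent.W_3f1825_top.Box

set_option autoImplicit false

/-! Vanishing of the homology above the dimension. -/

open scoped Topology

namespace Pool.Agent.W_3f1825_top

open Pool.Agent.W_MP_6d5819_gt

variable {R : Type} [CommRing R] {d : ℕ}

/-- full cell -/
def fc (a : Fin d → ℤ) : (Fin d → ℤ) × (Fin d → ℤ) := (a, fun j => a j + 1)

theorem fc_cell (a : Fin d → ℤ) : IsCell (fc a) := fun j => ⟨by simp [fc], by simp [fc]⟩

theorem dm_le (q : (Fin d → ℤ) × (Fin d → ℤ)) : dm q ≤ d := by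
  unfold dm
  refine (Finset.card_filter_le _ _).trans ?_
  simp

theorem meet_fc_ne {a b : Fin d → ℤ} (h : a ≠ b) :
    meet (fc a) (fc b) ≠ fc a := by
  intro hm
  apply h
  funext j
  have h1 : max (a j) (b j) = a j := congrFun (congrArg Prod.fst hm) j
  have h2 : min (a j + 1) (b j + 1) = a j + 1 := congrFun (congrArg Prod.snd hm) j
  omega

/-- the cube of full cells -/
noncomputable def cube (d : ℕ) (L : ℤ) : Finset (Fin d → ℤ) :=
  Fintype.piFinset fun _ => Finset.Icc (-L) L

theorem mem_cube {L : ℤ} {a : Fin d → ℤ} : a ∈ cube d L ↔ ∀ j, -L ≤ a j ∧ a j ≤ L := by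
  simp [cube]

open Classical in
theorem bu_cube {δ : ℝ} (hδ : 0 < δ) {L : ℤ} (hL : 0 ≤ L) :
    bu δ ((cube d L).image fc) = bx δ (fun _ => -L, fun _ => L + 1) := by
  ext x
  simp only [mem_bu, Finset.mem_image, exists_exists_and_eq_and, bx, Set.mem_ofPred_eq]
  constructor
  · rintro ⟨a, ha, hx⟩ j
    obtain ⟨h1, h2⟩ := mem_cube.1 ha j
    obtain ⟨h3, h4⟩ := hx j
    have h1' : (-L : ℝ) ≤ a j := by exact_mod_cast h1
    have h2' : (a j : ℝ) ≤ L := by exact_mod_cast h2
    simp only [fc] at h3 h4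
    push_cast at h3 h4 ⊢
    constructor
    · nlinarith
    · nlinarith
  · intro hx
    refine ⟨fun j => max (-L) (min L ⌊x j / δ⌋), ?_, ?_⟩
    · rw [mem_cube]
      intro j
      refine ⟨le_max_left _ _, ?_⟩
      exact max_le (by omega) (min_le_left _ _)
    · intro j
      obtain ⟨h1, h2⟩ := hx j
      have hf1 : (⌊x j / δ⌋ : ℝ) ≤ x j / δ := Int.floor_le _
      have hf2 : x j / δ < ⌊x j / δ⌋ + 1 := Int.lt_floor_add_one _
      have hf1' : δ * (⌊x j / δ⌋ : ℝ) ≤ x j := by
        have := mul_le_mul_of_nonneg_left hf1 hδ.le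
        rwa [mul_div_cancel₀ _ hδ.ne'] at this
      have hf2' : x j < δ * ((⌊x j / δ⌋ : ℝ) + 1) := by
        have := mul_lt_mul_of_pos_left hf2 hδ
        rwa [mul_div_cancel₀ _ hδ.ne'] at this
      push_cast at h1 h2
      simp only [fc]
      rcases le_total (⌊x j / δ⌋) (-L) with h3 | h3
      · have e : max (-L) (min L ⌊x j / δ⌋) = -L := by
          rw [max_eq_left]
          exact (min_le_right _ _).trans h3
        rw [e]
        have h3' : (⌊x j / δ⌋ : ℝ) ≤ -L := by exact_mod_cast h3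
        push_cast
        constructor
        · exact h1
        · nlinarith
      · rcases le_total (⌊x j / δ⌋) L with h4 | h4
        · have e : max (-L) (min L ⌊x j / δ⌋) = ⌊x j / δ⌋ := by
            rw [min_eq_right h4, max_eq_right h3]
          rw [e]
          push_cast
          constructor
          · nlinarith
          · nlinarith
        · have e : max (-L) (min L ⌊x j / δ⌋) = L := by
            rw [min_eq_left h4, max_eq_right (by omega)]
          rw [e]
          have h4' : (L : ℝ) ≤ ⌊x j / δ⌋ := by exact_mod_cast h4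
          push_cast
          constructor
          · nlinarith
          · exact h2

open Classical in
/-- unions of full boxes -/
theorem Van_full (hd : 1 ≤ d) {δ : ℝ} (hδ : 0 < δ) (S : Finset (Fin d → ℤ)) {i : ℕ}
    (hi : d ≤ i) : Van R i (bu δ (S.image fc)) := by
  have hS : ∀ q ∈ S.image fc, IsCell q ∧ dm q < d + 1 := by
    intro q hq
    obtain ⟨a, -, rfl⟩ := Finset.mem_image.1 hq
    exact ⟨fc_cell a, Nat.lt_succ_of_le (dm_le _)⟩
  rcases hi.eq_or_lt with rfl | hi'
  swap
  · exact Van_boxes hδ (d + 1) _ hS i hi'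
  -- the case `i = d`
  obtain ⟨L, hL0, hL⟩ : ∃ L : ℤ, 0 ≤ L ∧ S ⊆ cube d L := by
    refine ⟨∑ a ∈ S, ∑ j, |a j|, Finset.sum_nonneg fun a _ => Finset.sum_nonneg fun j _ =>
      abs_nonneg _, ?_⟩
    intro a ha
    rw [mem_cube]
    intro j
    have h1 : |a j| ≤ ∑ j, |a j| :=
      Finset.single_le_sum (f := fun j => |a j|) (fun j _ => abs_nonneg _) (Finset.mem_univ j)
    have h2 : ∑ j, |a j| ≤ ∑ a ∈ S, ∑ j, |a j| :=
      Finset.single_le_sum (f := fun a : Fin d → ℤ => ∑ j, |a j|)
        (fun a _ => Finset.sum_nonneg fun j _ => abs_nonneg _) ha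
    exact abs_le.1 (h1.trans h2)
  set T := cube d L \ S with hT
  have hun : bu δ (S.image fc) ∪ bu δ (T.image fc) = bx δ (fun _ => -L, fun _ => L + 1) := by
    rw [← bu_cube hδ hL0]
    ext x
    simp only [Set.mem_union, mem_bu, Finset.mem_image, exists_exists_and_eq_and, hT,
      Finset.mem_sdiff]
    constructor
    · rintro (⟨a, ha, hx⟩ | ⟨a, ha, hx⟩)
      · exact ⟨a, hL ha, hx⟩
      · exact ⟨a, ha.1, hx⟩
    · rintro ⟨a, ha, hx⟩
      by_cases h : a ∈ S
      · exact Or.inl ⟨a, h, hx⟩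
      · exact Or.inr ⟨a, ⟨ha, h⟩, hx⟩
  obtain ⟨d', rfl⟩ : ∃ d', d = d' + 1 := ⟨d - 1, by omega⟩
  refine Van_left (bu_isOpen δ _) (bu_isOpen δ (T.image fc)) ?_ ?_
  · rw [hun]
    exact Van_bx δ _ d'
  · rw [bu_inter hδ]
    refine Van_boxes hδ (d' + 1) _ ?_ _ le_rfl
    intro r hr
    simp only [mt, Finset.mem_filter, Finset.mem_image, Finset.mem_product] at hr
    obtain ⟨⟨⟨_, _⟩, ⟨⟨a, ha, rfl⟩, ⟨b, hb, rfl⟩⟩, rfl⟩, hval⟩ := hr
    simp only at hval ⊢
    have hab : a ≠ b := by
      rintro rfl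
      exact (Finset.mem_sdiff.1 hb).2 ha
    refine ⟨meet_cell (fc_cell a) hval, ?_⟩
    exact (dm_meet_lt (fc_cell a) hval (meet_fc_ne hab)).trans_le (dm_le _)

/-- the union of the ranges of the simplices of a chain -/
def carrier {X : Type} [TopologicalSpace X] (c : Ch R X) : Set X :=
  ⋃ s ∈ c.support, Set.range s.2

theorem carrier_compact {X : Type} [TopologicalSpace X] (c : Ch R X) : IsCompact (carrier c) :=
  c.support.isCompact_biUnion fun s _ => isCompact_range s.2.continuous

theorem mem_chIn_iff_carrier {X : Type} [TopologicalSpace X] {U V : Set X} {n : ℕ} {c : Ch R X}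
    (hc : c ∈ chIn R n U) (h : carrier c ⊆ V) : c ∈ chIn R n V := by
  rw [mem_chIn] at hc ⊢
  intro s hs
  exact ⟨(hc s hs).1, (Set.subset_biUnion_of_mem (u := fun s : Sing X => Set.range s.2) hs).trans h⟩

theorem carrier_subset {X : Type} [TopologicalSpace X] {U : Set X} {n : ℕ} {c : Ch R X}
    (hc : c ∈ chIn R n U) : carrier c ⊆ U := by
  rw [mem_chIn] at hc
  exact Set.iUnion₂_subset fun s hs => (hc s hs).2

/-- open subsets of Euclidean space -/
theorem Van_open (hd : 1 ≤ d) {U : Set (Fin d → ℝ)} (hU : IsOpen U) {i : ℕ} (hi : d ≤ i) :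
    Van R i U := by
  classical
  intro c hc
  obtain ⟨hc1, hc2⟩ := Submodule.mem_inf.1 hc
  have hK := carrier_compact c
  have hKU := carrier_subset hc1
  obtain ⟨r, hr, hrU⟩ := hK.exists_thickening_subset_open hU hKU
  -- boundedness
  obtain ⟨M, hM⟩ := hK.isBounded.exists_norm_le
  set δ : ℝ := r / 2 with hδdef
  have hδ : 0 < δ := by positivity
  obtain ⟨L, hL⟩ := exists_nat_ge (M / δ + 1)
  let S : Finset (Fin d → ℤ) := (cube d (L : ℤ)).filter fun a => bx δ (fc a) ⊆ U
  have hSU : bu δ (S.image fc) ⊆ U := by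
    intro x hx
    obtain ⟨q, hq, hxq⟩ := mem_bu.1 hx
    obtain ⟨a, ha, rfl⟩ := Finset.mem_image.1 hq
    exact (Finset.mem_filter.1 ha).2 hxq
  have hKS : carrier c ⊆ bu δ (S.image fc) := by
    intro x hx
    let a : Fin d → ℤ := fun j => ⌊x j / δ⌋
    have hfl : ∀ j, δ * (a j : ℝ) ≤ x j ∧ x j < δ * ((a j : ℝ) + 1) := by
      intro j
      have hf1 : (⌊x j / δ⌋ : ℝ) ≤ x j / δ := Int.floor_le _
      have hf2 : x j / δ < ⌊x j / δ⌋ + 1 := Int.lt_floor_add_one _
      constructor
      · have := mul_le_mul_of_nonneg_left hf1 hδ.le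
        rwa [mul_div_cancel₀ _ hδ.ne'] at this
      · have := mul_lt_mul_of_pos_left hf2 hδ
        rwa [mul_div_cancel₀ _ hδ.ne'] at this
    refine mem_bu.2 ⟨fc a, Finset.mem_image.2 ⟨a, Finset.mem_filter.2 ⟨?_, ?_⟩, rfl⟩, ?_⟩
    · rw [mem_cube]
      intro j
      have h1 : |x j| ≤ M := (norm_le_pi_norm x j).trans (hM x hx)
      obtain ⟨h2, h3⟩ := abs_le.1 h1
      obtain ⟨h4, h5⟩ := hfl j
      have h6 : M ≤ δ * (L - 1) := by
        have h7 : M / δ ≤ L - 1 := by linarith
        have h8 := mul_le_mul_of_nonneg_left h7 hδ.le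
        rwa [mul_div_cancel₀ _ hδ.ne'] at h8
      constructor
      · have h9 : δ * (-L : ℝ) < δ * ((a j : ℝ) + 0) + δ * 1 - δ * 0 := by nlinarith
        have h10 : (-L : ℝ) < (a j : ℝ) + 1 := by
          by_contra hcon
          push Not at hcon
          nlinarith
        have h11 : (-(L : ℤ)) < a j + 1 := by exact_mod_cast h10
        omega
      · have h10 : (a j : ℝ) ≤ L := by
          by_contra hcon
          push Not at hcon
          nlinarith
        exact_mod_cast h10
    · intro y hy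
      apply hrU
      rw [Metric.mem_thickening_iff]
      refine ⟨x, hx, ?_⟩
      rw [dist_pi_lt_iff hr]
      intro j
      obtain ⟨h4, h5⟩ := hfl j
      obtain ⟨h6, h7⟩ := hy j
      simp only [fc] at h6 h7
      push_cast at h6 h7
      rw [Real.dist_eq, abs_lt]
      constructor
      · nlinarith
      · nlinarith
    · intro j
      obtain ⟨h4, h5⟩ := hfl j
      simp only [fc]
      push_cast
      constructor
      · nlinarith
      · nlinarith
  have h1 : c ∈ cyc R i (bu δ (S.image fc)) :=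
    Submodule.mem_inf.2 ⟨mem_chIn_iff_carrier hc1 hKS, hc2⟩
  exact Submodule.map_mono (chIn_mono R hSU) (Van_full hd hδ S hi h1)

/-- locally Euclidean spaces of dimension `d` -/
def LocEuc (d : ℕ) (X : Type) [TopologicalSpace X] : Prop :=
  ∀ x : X, ∃ e : OpenPartialHomeomorph X (Fin d → ℝ), x ∈ e.source

/-- **Homology vanishes above the dimension.** -/
theorem hvan {X : Type} [TopologicalSpace X] (hd : 1 ≤ d) (hX : LocEuc d X) {i : ℕ}
    (hi : d < i) : cyc R i (Set.univ : Set X) ≤ bds R i Set.univ := by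
  classical
  intro c hc
  obtain ⟨hc1, hc2⟩ := Submodule.mem_inf.1 hc
  choose e he using hX
  obtain ⟨t, ht⟩ := (carrier_compact c).elim_nhds_subcover (fun x => (e x).source)
    (fun x _ => (e x).open_source.mem_nhds (he x))
  have key : ∀ t : Finset X, Van R i (⋃ x ∈ t, (e x).source) := by
    intro t
    induction t using Finset.induction_on with
    | empty =>
      have : (⋃ x ∈ (∅ : Finset X), (e x).source) = ∅ := by simp
      rw [this]
      exact Van_empty i
    | insert a t ha ih =>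
      have h1 : (⋃ x ∈ insert a t, (e x).source) = (e a).source ∪ ⋃ x ∈ t, (e x).source := by
        simp
      rw [h1]
      obtain ⟨i', rfl⟩ : ∃ i', i = i' + 1 := ⟨i - 1, by omega⟩
      have ho : IsOpen (⋃ x ∈ t, (e x).source) := isOpen_biUnion fun x _ => (e x).open_source
      refine Van_union (e a).open_source ho ?_ ih ?_
      · refine Van_chart (e a) le_rfl ?_
        exact Van_open hd ((e a).isOpen_image_source_inter isOpen_univ |> fun h => by
          simpa using h) (by omega)
      · refine Van_chart (e a) Set.inter_subset_left ?_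
        exact Van_open hd ((e a).isOpen_image_source_inter ho) (by omega)
  have h2 : c ∈ cyc R i (⋃ x ∈ t, (e x).source) :=
    Submodule.mem_inf.2 ⟨mem_chIn_iff_carrier hc1 ht.2, hc2⟩
  exact Submodule.map_mono (chIn_mono R (Set.subset_univ _)) (key t h2)

end Pool.Agent.W_3f1825_top
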