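import Pool.Agent.W_3f1825_top.Step6

set_option autoImplicit false

/-! Reduction of the vanishing of the `l¹` seminorm to homogeneous chains. -/

open Filter Topology

namespace Pool.Agent.W_3f1825_top

open Pool.Agent.W_MP_6d5819_gt (Ch Sing Simp vtx face aff aff_vtx chIn cyc bds bd bd_bd push pushSimp
  push_single push_push push_id bd_push mem_chIn chIn_induction single_mem_chIn bd_mem_chIn
  bd_single_zero bd_single_succ ConeData)

variable {X : Type} [TopologicalSpace X] {G : Type} [Group G] [MulAction G X]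
  [ContinuousConstSMul G X]

instance instSub (L : Subgroup G) : ContinuousConstSMul L X :=
  ⟨fun g => continuous_const_smul (g : G)⟩

theorem act_pushSimp (g : G) (s : Sing X) : pushSimp (act G g) s = g • s := by
  obtain ⟨n, σ⟩ := s
  rfl

theorem tr_eq_push {R : Type} [CommRing R] (g : G) (x : Ch R X) :
    tr R g x = push R (act G g) x := by
  have h : (fun t : Sing X => g • t) = pushSimp (act G g) := funext fun s => (act_pushSimp g s).symm
  rw [tr, push, h]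

theorem sing_free (hfree : ∀ (g : G) (x : X), g • x = x → g = 1) (g : G) (t : Sing X)
    (h : g • t = t) : g = 1 := by
  obtain ⟨m, v⟩ := t
  have h1 : (⟨m, g • v⟩ : Sing X) = ⟨m, v⟩ := h
  have h2 : g • v = v := eq_of_heq (Sigma.mk.inj h1).2
  exact hfree g (v (vtx 0)) (DFunLike.congr_fun h2 (vtx 0))

theorem sing_deg (g : G) (t : Sing X) : (g • t).1 = t.1 := by
  obtain ⟨m, v⟩ := t
  rfl

omit [Group G] [MulAction G X] [ContinuousConstSMul G X] in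
theorem bd_supp (t : Sing X) : bd ℝ (Finsupp.single t 1) ∈
    Finsupp.supported ℝ ℝ {t' : Sing X | t'.1 + 1 = t.1} := by
  obtain ⟨m, v⟩ := t
  cases m with
  | zero => rw [bd_single_zero]; exact Submodule.zero_mem _
  | succ m =>
    have h := bd_mem_chIn ℝ (single_mem_chIn ℝ v (Set.subset_univ _) (1 : ℝ))
    refine Finsupp.supported_mono ?_ h
    intro t ht
    have ht' : t.1 = m := ht.1
    change t.1 + 1 = m + 1
    rw [ht']

theorem act_mul (g h : G) : act G (X := X) (g * h) = (act G g).comp (act G h) := by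
  ext x
  exact mul_smul g h x

theorem sm_vm_zero {l : X → G} (D : ConeData (Set.univ : Set X)) {x₀ : X}
    (hD : ∀ x, D.H (x, 1) = x₀) (t : Sing X) (ht : t.1 = 0) :
    bd ℝ (D.op ℝ (sM ℝ D x₀ (vM ℝ l (Finsupp.single t 1)) - Finsupp.single t 1)) =
      sM ℝ D x₀ (vM ℝ l (Finsupp.single t 1)) - Finsupp.single t 1 := by
  obtain ⟨m, v⟩ := t
  simp only at ht
  subst ht
  rw [vM_single, sM_single, map_sub, map_sub, D.bd_op_zero ℝ (Set.subset_univ _),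
    D.bd_op_zero ℝ (Set.subset_univ _), hD, hD]
  abel

theorem sm_vm_homotopy (hfree : ∀ (g : G) (x : X), g • x = x → g = 1)
    {l : X → G}
    (hl : ∀ (g : G) x, l (g • x) = g * l x) (D : ConeData (Set.univ : Set X)) {x₀ : X}
    (hD : ∀ x, D.H (x, 1) = x₀) :
    ∃ h : Ch ℝ X →ₗ[ℝ] Ch ℝ X, (∀ (g : G) x, h (push ℝ (act G g) x) = push ℝ (act G g) (h x)) ∧
      (∀ n, ∀ c ∈ chIn ℝ n (Set.univ : Set X), h c ∈ chIn ℝ (n + 1) (Set.univ : Set X)) ∧
      ∀ x, bd ℝ (h x) + h (bd ℝ x) = sM ℝ D x₀ (vM ℝ l x) - x := by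
  obtain ⟨φ, hφ⟩ : ∃ φ : Ch ℝ X →ₗ[ℝ] Ch ℝ X, ∀ x, φ x = sM ℝ D x₀ (vM ℝ l x) - x :=
    ⟨(sM ℝ D x₀).comp (vM ℝ l) - LinearMap.id, fun x => rfl⟩
  have a1 : ∀ (g : G) (x : Ch ℝ X), bd ℝ (tr ℝ g x) = tr ℝ g (bd ℝ x) := by
    intro g x
    rw [tr_eq_push, tr_eq_push, bd_push]
  have a2 : ∀ (g h : G) (v : Ch ℝ X), push ℝ (act G (g * h)) v =
      push ℝ (act G g) (push ℝ (act G h) v) := by
    intro g h v
    rw [push_push, act_mul]
  have a3 : ∀ (g : G) (n : ℕ) (v : Ch ℝ X), v ∈ chIn ℝ n (Set.univ : Set X) →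
      push ℝ (act G g) v ∈ chIn ℝ n (Set.univ : Set X) := by
    intro g n v hv
    exact push_mem_chIn _ (fun x _ => Set.mem_univ _) hv
  have a4 : ∀ (g : G) (v : Ch ℝ X), bd ℝ (push ℝ (act G g) v) = push ℝ (act G g) (bd ℝ v) :=
    fun g v => bd_push ℝ _ v
  have a5 : ∀ (g : G) (x : Ch ℝ X), φ (tr ℝ g x) = push ℝ (act G g) (φ x) := by
    intro g x
    rw [hφ, hφ, tr_eq_push, vM_push ℝ hl, sM_mpT, map_sub]
  have a6 : ∀ t : Sing X, φ (Finsupp.single t 1) ∈ chIn ℝ t.1 (Set.univ : Set X) := by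
    rintro ⟨m, v⟩
    have hv := single_mem_chIn ℝ v (Set.subset_univ _) (1 : ℝ)
    rw [hφ]
    exact Submodule.sub_mem _ (sM_mem ℝ D x₀ (vM_mem ℝ l hv)) hv
  have a7 : ∀ x : Ch ℝ X, bd ℝ (φ x) = φ (bd ℝ x) := by
    intro x
    rw [hφ, hφ, map_sub, bd_sM ℝ D hD, bdT_vM]
  have a8 : ∀ t : Sing X, t.1 = 0 → bd ℝ (D.op ℝ (φ (Finsupp.single t 1))) =
      φ (Finsupp.single t 1) := by
    intro t ht
    rw [hφ]
    exact sm_vm_zero D hD t ht
  obtain ⟨h, h1, h2, h3⟩ := exists_htpy (R := ℝ) (G := G) (T := Sing X) (sing_free hfree)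
    (fun s : Sing X => s.1) sing_deg (bd ℝ) (bd_bd ℝ) bd_supp a1
    (V := Ch ℝ X) (fun g => push ℝ (act G g)) a2 (fun n => chIn ℝ n (Set.univ : Set X)) a3 (bd ℝ)
    a4 φ a5 a6 a7 (D.op ℝ) (fun n v hv => D.op_mem ℝ hv) (fun n v hv => D.bd_op ℝ hv) a8
  refine ⟨h, fun g x => by rw [← tr_eq_push, h1 g x], ?_, ?_⟩
  · intro n c hc
    exact map_mem_of_chIn h _ (fun v => h2 ⟨n, v⟩) hc
  · intro x
    rw [← hφ]
    exact h3 x

/-- the vanishing property for relative cycles of a `G`-space -/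
def VanS (X : Type) [TopologicalSpace X] (G : Type) [Group G] [MulAction G X]
    [ContinuousConstSMul G X] (n : ℕ) : Prop :=
  ∀ c ∈ chIn ℝ n (Set.univ : Set X), bd ℝ c ∈ dlt (X := X) G ℝ → ∀ ε : ℝ, 0 < ε →
    ∃ x ∈ chIn ℝ n (Set.univ : Set X), ∃ e ∈ chIn ℝ (n + 1) (Set.univ : Set X),
      nrm x < ε ∧ c - x - bd ℝ e ∈ dlt (X := X) G ℝ

/-- the vanishing property for homogeneous chains -/
def VanT (G : Type) [Group G] (n : ℕ) : Prop :=
  ∀ c ∈ tin ℝ G n, bdT ℝ c ∈ dltT ℝ (S := G) G → ∀ ε : ℝ, 0 < ε →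
    ∃ x ∈ tin ℝ G n, ∃ e ∈ tin ℝ G (n + 1),
      nrm x < ε ∧ c - x - bdT ℝ e ∈ dltT ℝ (S := G) G

theorem exists_coneData [ContractibleSpace X] : ∃ (D : ConeData (Set.univ : Set X)) (x₀ : X),
    ∀ x, D.H (x, 1) = x₀ := by
  obtain ⟨x₀, ⟨F⟩⟩ := id_nullhomotopic X
  refine ⟨{ H := fun p => F (Set.projIcc 0 1 zero_le_one p.2, p.1)
            cont := ?_
            maps := fun _ _ _ _ => Set.mem_univ _
            zero := ?_
            one := ?_ }, x₀, ?_⟩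
  · refine Continuous.continuousOn ?_
    exact F.continuous.comp ((continuous_projIcc.comp continuous_snd).prodMk continuous_fst)
  · intro z _
    simp
  · intro z _
    refine Filter.Eventually.of_forall fun w => ?_
    simp
  · intro x
    simp

/-- **Step 6.** -/
theorem VanS_of_VanT [ContractibleSpace X] (hfree : ∀ (g : G) (x : X), g • x = x → g = 1) {n : ℕ}
    (h : VanT G n) : VanS X G n := by
  obtain ⟨D, x₀, hD⟩ := exists_coneData (X := X)
  obtain ⟨r, l, -, -, hl⟩ := exists_rep hfree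
  obtain ⟨H, hH1, hH2, hH3⟩ := sm_vm_homotopy hfree hl D hD
  intro c hc hdc ε hε
  have h1 : bdT ℝ (vM ℝ l c) ∈ dltT ℝ (S := G) G := by
    rw [bdT_vM]
    refine dlt_le (vM ℝ l) _ ?_ hdc
    intro g c
    rw [map_sub, vM_push ℝ hl]
    exact dltT_mem ℝ g _
  obtain ⟨x, hx, e, he, hxε, hxe⟩ := h (vM ℝ l c) (vM_mem ℝ l hc) h1 ε hε
  refine ⟨sM ℝ D x₀ x, sM_mem ℝ D x₀ hx, sM ℝ D x₀ e - H c,
    Submodule.sub_mem _ (sM_mem ℝ D x₀ he) (hH2 n c hc), ?_, ?_⟩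
  · exact (nrm_mapDomain_le _ _).trans_lt hxε
  · have h2 : c - sM ℝ D x₀ x - bd ℝ (sM ℝ D x₀ e - H c) =
        sM ℝ D x₀ (vM ℝ l c - x - bdT ℝ e) - H (bd ℝ c) := by
      have h3 := hH3 c
      have h4 : c = sM ℝ D x₀ (vM ℝ l c) - (bd ℝ (H c) + H (bd ℝ c)) := by rw [h3]; abel
      rw [map_sub, map_sub, map_sub, bd_sM ℝ D hD]
      nth_rewrite 1 [h4]
      abel
    rw [h2]
    refine Submodule.sub_mem _ ?_ ?_
    · refine dltT_le ℝ (sM ℝ D x₀) _ ?_ hxe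
      intro g c
      rw [map_sub, sM_mpT]
      exact dlt_mem ℝ g _
    · refine dlt_le H _ ?_ hdc
      intro g c
      rw [map_sub, hH1]
      exact dlt_mem ℝ g _

/-- **Step 0.** -/
theorem VanS_of_finiteIndex (L : Subgroup G) [L.FiniteIndex] {n : ℕ} (h : VanS X L n) :
    VanS X G n := by
  classical
  have : Finite (G ⧸ L) := Subgroup.finite_quotient_of_finiteIndex
  have := Fintype.ofFinite (G ⧸ L)
  obtain ⟨k, hkdef⟩ : ∃ k : ℝ, k = Fintype.card (G ⧸ L) := ⟨_, rfl⟩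
  have hk : 0 < k := by
    have : 0 < Fintype.card (G ⧸ L) := Fintype.card_pos
    rw [hkdef]
    exact_mod_cast this
  let t : Ch ℝ X →ₗ[ℝ] Ch ℝ X := ∑ q : G ⧸ L, push ℝ (act G (Quotient.out q)⁻¹)
  have ht : ∀ c, t c = ∑ q : G ⧸ L, push ℝ (act G (Quotient.out q)⁻¹) c := fun c => by
    simp [t]
  have hle : dlt (X := X) L ℝ ≤ dlt (X := X) G ℝ := by
    rw [dlt, Submodule.span_le]
    rintro _ ⟨⟨g, c⟩, rfl⟩
    exact dlt_mem (G := G) ℝ (g : G) c
  have ht1 : ∀ y ∈ dlt (X := X) G ℝ, t y ∈ dlt (X := X) L ℝ := by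
    intro y hy
    refine dlt_le t _ ?_ hy
    intro g c
    rw [map_sub, ht, ht]
    have h1 : ∑ q : G ⧸ L, push ℝ (act G (Quotient.out q)⁻¹) c =
        ∑ q : G ⧸ L, push ℝ (act G (Quotient.out (g⁻¹ • q))⁻¹) c :=
      (Equiv.sum_comp (MulAction.toPerm (g⁻¹ : G))
        fun q : G ⧸ L => push ℝ (act G (Quotient.out q)⁻¹) c).symm
    rw [h1, ← Finset.sum_sub_distrib]
    refine Submodule.sum_mem _ fun q _ => ?_
    have h2 : ∃ l : L, (Quotient.out (g⁻¹ • q)) * (l : G) = g⁻¹ * Quotient.out q := by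
      have h3 : ((Quotient.out (g⁻¹ • q) : G) : G ⧸ L) = ((g⁻¹ * Quotient.out q : G) : G ⧸ L) := by
        rw [QuotientGroup.out_eq']
        conv_lhs => rw [← QuotientGroup.out_eq' q]
        rfl
      have h4 := QuotientGroup.eq.1 h3
      exact ⟨⟨_, h4⟩, by simp⟩
    obtain ⟨l, hl⟩ := h2
    have h5 : (Quotient.out q)⁻¹ * g = (l : G)⁻¹ * (Quotient.out (g⁻¹ • q))⁻¹ := by
      rw [← mul_inv_rev, hl, mul_inv_rev, inv_inv]
    have h6 : push ℝ (act G (Quotient.out q)⁻¹) (push ℝ (act G g) c) =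
        push ℝ (act L (l⁻¹)) (push ℝ (act G (Quotient.out (g⁻¹ • q))⁻¹) c) := by
      have h7 : (act G (X := X) (Quotient.out q)⁻¹).comp (act G g) =
          (act L (l⁻¹)).comp (act G (Quotient.out (g⁻¹ • q))⁻¹) := by
        ext x
        change (Quotient.out q)⁻¹ • (g • x) = (l : G)⁻¹ • ((Quotient.out (g⁻¹ • q))⁻¹ • x)
        rw [← mul_smul, ← mul_smul, h5]
      rw [push_push, push_push, h7]
    rw [h6]
    exact dlt_mem (G := L) ℝ _ _
  have ht2 : ∀ c, t c - k • c ∈ dlt (X := X) G ℝ := by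
    intro c
    have h1 : k • c = ∑ q : G ⧸ L, c := by
      rw [Finset.sum_const, Finset.card_univ, ← Nat.cast_smul_eq_nsmul ℝ, hkdef]
    rw [ht, h1, ← Finset.sum_sub_distrib]
    exact Submodule.sum_mem _ fun q _ => dlt_mem ℝ _ _
  have ht3 : ∀ c ∈ chIn ℝ n (Set.univ : Set X), t c ∈ chIn ℝ n (Set.univ : Set X) := by
    intro c hc
    rw [ht]
    exact Submodule.sum_mem _ fun q _ => push_mem_chIn _ (fun x _ => Set.mem_univ _) hc
  intro c hc hdc ε hε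
  have h1 : bd ℝ (t c) ∈ dlt (X := X) L ℝ := by
    have h2 : bd ℝ (t c) = t (bd ℝ c) := by
      rw [ht, ht, map_sum]
      exact Finset.sum_congr rfl fun q _ => bd_push ℝ _ _
    rw [h2]
    exact ht1 _ hdc
  obtain ⟨x, hx, e, he, hxε, hxe⟩ := h (t c) (ht3 c hc) h1 (k * ε) (by positivity)
  refine ⟨k⁻¹ • x, Submodule.smul_mem _ _ hx, k⁻¹ • e, Submodule.smul_mem _ _ he, ?_, ?_⟩
  · rw [nrm_smul, abs_of_pos (by positivity)]
    have := mul_lt_mul_of_pos_left hxε (inv_pos.2 hk)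
    rwa [← mul_assoc, inv_mul_cancel₀ hk.ne', one_mul] at this
  · have h2 : c - k⁻¹ • x - bd ℝ (k⁻¹ • e) = k⁻¹ • ((t c - x - bd ℝ e) - (t c - k • c)) := by
      rw [map_smul]
      simp only [smul_sub, smul_smul, inv_mul_cancel₀ hk.ne', one_smul]
      abel
    rw [h2]
    exact Submodule.smul_mem _ _ (Submodule.sub_mem _ (hle hxe) (ht2 c))

/-- **Final step.** -/
theorem seminorm_zero {M : Type} [TopologicalSpace M] {f : C(X, M)}
    (hf : IsQuotientCoveringMap f G) {n : ℕ} (h : VanS X G n) :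
    ∀ c ∈ cyc ℝ n (Set.univ : Set M), ∀ ε : ℝ, 0 < ε →
      ∃ c' ∈ cyc ℝ n (Set.univ : Set M), c - c' ∈ bds ℝ n (Set.univ : Set M) ∧ nrm c' < ε := by
  intro c hc ε hε
  obtain ⟨hc1, hc2⟩ := Submodule.mem_inf.1 hc
  rw [LinearMap.mem_ker] at hc2
  obtain ⟨b, hb, rfl⟩ := exists_lift_chain hf ℝ hc1
  have h1 : bd ℝ b ∈ dlt (X := X) G ℝ := ker_push hf ℝ (by rw [← bd_push, hc2])
  obtain ⟨x, hx, e, he, hxε, hxe⟩ := h b hb h1 ε hε
  have h2 := push_dlt hf ℝ hxe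
  rw [map_sub, map_sub, sub_eq_zero] at h2
  refine ⟨push ℝ f x, ?_, ?_, ?_⟩
  · refine Submodule.mem_inf.2 ⟨push_mem_chIn f (fun x _ => Set.mem_univ _) hx, ?_⟩
    rw [LinearMap.mem_ker]
    have h3 : push ℝ f x = push ℝ f b - push ℝ f (bd ℝ e) := by rw [← h2]; abel
    rw [h3, map_sub, hc2, bd_push, bd_bd, map_zero, sub_zero]
  · refine ⟨push ℝ f e, push_mem_chIn f (fun x _ => Set.mem_univ _) he, ?_⟩
    rw [h2, bd_push]
  · exact (nrm_mapDomain_le _ _).trans_lt hxε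

end Pool.Agent.W_3f1825_top
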