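import Pool.Agent.W_3f1825_top.Step5
import Pool.Agent.W_3f1825_top.Cov
import Pool.Agent.W_MP_6d5819_gt.Cone

set_option autoImplicit false

/-! Comparison of singular chains of a contractible free `G`-space with homogeneous chains. -/

open Filter Topology

namespace Pool.Agent.W_3f1825_top

open Pool.Agent.W_MP_6d5819_gt (Ch Sing Simp vtx face aff aff_vtx chIn cyc bds bd bd_bd push pushSimp
  push_single push_push push_id bd_push mem_chIn chIn_induction single_mem_chIn bd_mem_chIn
  bd_single_zero bd_single_succ ConeData)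

variable {X : Type} [TopologicalSpace X] {G : Type}

theorem map_mem_of_chIn {R : Type} [CommRing R] {n : ℕ} {V : Type} [AddCommGroup V] [Module R V]
    (f : Ch R X →ₗ[R] V) (P : Submodule R V)
    (h : ∀ v : C(Simp (n + 1), X), f (Finsupp.single ⟨n, v⟩ 1) ∈ P) {c : Ch R X}
    (hc : c ∈ chIn R n (Set.univ : Set X)) : f c ∈ P := by
  refine chIn_induction R (P := fun c => f c ∈ P) (by simp)
    (fun a b _ _ ha hb => by rw [map_add]; exact Submodule.add_mem _ ha hb) ?_ c hc
  intro v _ r
  have : Finsupp.single (⟨n, v⟩ : Sing X) r = r • Finsupp.single (⟨n, v⟩ : Sing X) (1 : R) := by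
    simp
  rw [this, map_smul]
  exact Submodule.smul_mem _ _ (h v)

theorem dlt_le [Group G] [MulAction G X] [ContinuousConstSMul G X] {R : Type} [CommRing R] {V : Type} [AddCommGroup V] [Module R V]
    (f : Ch R X →ₗ[R] V) (P : Submodule R V)
    (h : ∀ (g : G) (c : Ch R X), f (push R (act G g) c - c) ∈ P) {c : Ch R X}
    (hc : c ∈ dlt (X := X) G R) : f c ∈ P := by
  have : dlt (X := X) G R ≤ P.comap f := by
    rw [dlt, Submodule.span_le]
    rintro _ ⟨⟨g, c⟩, rfl⟩
    exact h g c
  exact this hc

/-! ### from singular chains to homogeneous chains -/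

/-- labels of the vertices -/
noncomputable def vM (R : Type) [CommRing R] (l : X → G) : Ch R X →ₗ[R] TC R G :=
  Finsupp.lmapDomain R R fun s : Sing X => (⟨s.1, fun i => l (s.2 (vtx i))⟩ : Tu G)

theorem vM_single (R : Type) [CommRing R] (l : X → G) {n : ℕ} (σ : C(Simp (n + 1), X)) (r : R) :
    vM R l (Finsupp.single (⟨n, σ⟩ : Sing X) r) =
      Finsupp.single (⟨n, fun i => l (σ (vtx i))⟩ : Tu G) r := by
  simp [vM]

theorem bdT_vM (R : Type) [CommRing R] (l : X → G) (c : Ch R X) :
    bdT R (vM R l c) = vM R l (bd R c) := by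
  induction c using Finsupp.induction_linear with
  | zero => simp
  | add a b ha hb => simp only [map_add, ha, hb]
  | single s r =>
    obtain ⟨n, σ⟩ := s
    cases n with
    | zero => rw [vM_single, bdT_single_zero, bd_single_zero, map_zero]
    | succ n =>
      rw [vM_single, bdT_single_succ, bd_single_succ, map_smul, map_sum]
      congr 1
      refine Finset.sum_congr rfl fun i _ => ?_
      rw [vM_single]
      congr 2
      funext j
      simp [face]

theorem vM_mem (R : Type) [CommRing R] (l : X → G) {n : ℕ} {c : Ch R X}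
    (hc : c ∈ chIn R n (Set.univ : Set X)) : vM R l c ∈ tin R G n := by
  refine map_mem_of_chIn (vM R l) _ ?_ hc
  intro v
  rw [vM_single]
  exact single_mem_tin R _ _

variable [Group G] [MulAction G X] [ContinuousConstSMul G X]

theorem vM_push (R : Type) [CommRing R] {l : X → G} (hl : ∀ (g : G) x, l (g • x) = g * l x) (g : G)
    (c : Ch R X) : vM R l (push R (act G g) c) = mpT R (fun s : G => g • s) (vM R l c) := by
  induction c using Finsupp.induction_linear with
  | zero => simp
  | add a b ha hb => simp only [map_add, ha, hb]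
  | single s r =>
    obtain ⟨n, σ⟩ := s
    rw [push_single, pushSimp, vM_single, vM_single, mpT_single, mpTu]
    congr 2
    funext j
    exact hl g _

/-! ### from homogeneous chains to singular chains -/

/-- the iterated cone simplices -/
noncomputable def sS (D : ConeData (Set.univ : Set X)) (x₀ : X) :
    (m : ℕ) → (Fin (m + 1) → G) → C(Simp (m + 1), X)
  | 0, v => ContinuousMap.const _ (v 0 • x₀)
  | m + 1, v => (act G (v 0)).comp (D.cone ((act G (v 0)⁻¹).comp (sS D x₀ m fun j => v j.succ))
      (Set.subset_univ _))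

/-- the map on chains -/
noncomputable def sM (R : Type) [CommRing R] (D : ConeData (Set.univ : Set X)) (x₀ : X) :
    TC R G →ₗ[R] Ch R X :=
  Finsupp.lmapDomain R R fun t : Tu G => (⟨t.1, sS D x₀ t.1 t.2⟩ : Sing X)

theorem sM_single (R : Type) [CommRing R] (D : ConeData (Set.univ : Set X)) (x₀ : X) {n : ℕ}
    (v : Fin (n + 1) → G) (r : R) : sM R D x₀ (Finsupp.single (⟨n, v⟩ : Tu G) r) =
      Finsupp.single (⟨n, sS D x₀ n v⟩ : Sing X) r := by
  simp [sM]

theorem sM_mem (R : Type) [CommRing R] (D : ConeData (Set.univ : Set X)) (x₀ : X) {n : ℕ}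
    {c : TC R G} (hc : c ∈ tin R G n) : sM R D x₀ c ∈ chIn R n (Set.univ : Set X) := by
  refine map_mem_of_tin R (sM R D x₀) _ ?_ hc
  intro v
  rw [sM_single]
  exact single_mem_chIn R _ (Set.subset_univ _) _

theorem sS_smul (D : ConeData (Set.univ : Set X)) (x₀ : X) (g : G) : ∀ (m : ℕ)
    (v : Fin (m + 1) → G), sS D x₀ m (g • v) = (act G g).comp (sS D x₀ m v) := by
  intro m
  induction m with
  | zero =>
    intro v
    ext s
    change (g * v 0) • x₀ = g • (v 0 • x₀)
    rw [mul_smul]
  | succ m ih =>
    intro v
    have h1 : (fun j : Fin (m + 1) => (g • v) j.succ) = g • fun j : Fin (m + 1) => v j.succ := rfl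
    have h2 : (g • v) 0 = g * v 0 := rfl
    have h3 : (act G (X := X) (g * v 0)⁻¹).comp (sS D x₀ m (g • fun j : Fin (m + 1) => v j.succ)) =
        (act G (v 0)⁻¹).comp (sS D x₀ m fun j => v j.succ) := by
      rw [ih]
      ext s
      change (g * v 0)⁻¹ • (g • sS D x₀ m (fun j => v j.succ) s) =
        (v 0)⁻¹ • sS D x₀ m (fun j => v j.succ) s
      rw [← mul_smul, mul_inv_rev, inv_mul_cancel_right]
    rw [sS, sS]
    simp only [h1, h2, h3]
    ext s
    exact mul_smul g (v 0) _

theorem sM_mpT (R : Type) [CommRing R] (D : ConeData (Set.univ : Set X)) (x₀ : X) (g : G)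
    (c : TC R G) : sM R D x₀ (mpT R (fun s : G => g • s) c) = push R (act G g) (sM R D x₀ c) := by
  induction c using Finsupp.induction_linear with
  | zero => simp
  | add a b ha hb => simp only [map_add, ha, hb]
  | single s r =>
    obtain ⟨n, v⟩ := s
    have h := sS_smul D x₀ g n v
    rw [mpT_single]
    change sM R D x₀ (Finsupp.single (⟨n, g • v⟩ : Tu G) r) = _
    rw [sM_single, h, sM_single, push_single, pushSimp]

theorem sM_succ (R : Type) [CommRing R] (D : ConeData (Set.univ : Set X)) (x₀ : X) {n : ℕ}
    (v : Fin (n + 2) → G) (r : R) : sM R D x₀ (Finsupp.single (⟨n + 1, v⟩ : Tu G) r) =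
      push R (act G (v 0)) (D.op R (push R (act G (v 0)⁻¹)
        (sM R D x₀ (Finsupp.single (⟨n, fun j => v j.succ⟩ : Tu G) r)))) := by
  rw [sM_single, sM_single, push_single, pushSimp, D.op_single R _ (Set.subset_univ _),
    push_single, pushSimp]
  rfl

theorem bd_sM (R : Type) [CommRing R] (D : ConeData (Set.univ : Set X)) {x₀ : X}
    (hD : ∀ x, D.H (x, 1) = x₀) (c : TC R G) : bd R (sM R D x₀ c) = sM R D x₀ (bdT R c) := by
  have key : ∀ (n : ℕ) (v : Fin (n + 1) → G) (r : R),
      bd R (sM R D x₀ (Finsupp.single (⟨n, v⟩ : Tu G) r)) =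
        sM R D x₀ (bdT R (Finsupp.single (⟨n, v⟩ : Tu G) r)) := by
    intro n
    induction n with
    | zero =>
      intro v r
      rw [sM_single, bd_single_zero, bdT_single_zero, map_zero]
    | succ n ih =>
      intro v r
      rw [sM_succ, bd_push]
      cases n with
      | zero =>
        rw [sM_single, push_single, pushSimp, D.bd_op_zero R (Set.subset_univ _), map_sub,
          push_single, push_single, bdT_single_succ, Fin.sum_univ_two, map_smul, map_add,
          sM_single, sM_single]
        have h1 : pushSimp (act G (v 0)) (⟨0, (act G (v 0)⁻¹).comp (sS D x₀ 0 fun j => v j.succ)⟩ : Sing X) =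
            ⟨0, sS D x₀ 0 fun j => v ((0 : Fin 2).succAbove j)⟩ := by
          rw [pushSimp]
          congr 1
          ext s
          exact smul_inv_smul (v 0) (sS D x₀ 0 (fun j => v j.succ) s)
        have h2 : pushSimp (act G (v 0)) (⟨0, ContinuousMap.const (Simp 1) (D.H
            (((act G (v 0)⁻¹).comp (sS D x₀ 0 fun j => v j.succ)) (vtx 0), 1))⟩ : Sing X) =
            ⟨0, sS D x₀ 0 fun j => v ((1 : Fin 2).succAbove j)⟩ := by
          rw [pushSimp, hD]
          congr 1
        rw [h1, h2]
        simp [sub_eq_add_neg]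
      | succ n =>
        have hy : sM R D x₀ (Finsupp.single (⟨n + 1, fun j => v j.succ⟩ : Tu G) r) ∈
            chIn R (n + 1) (Set.univ : Set X) := sM_mem R D x₀ (single_mem_tin R _ _)
        have h1 := D.bd_op R (push_mem_chIn (V := Set.univ) (act G (v 0)⁻¹)
          (fun x _ => Set.mem_univ _) hy)
        have h2 := eq_sub_of_add_eq h1
        rw [h2, map_sub, push_push]
        have h3 : (act G (X := X) (v 0)).comp (act G (v 0)⁻¹) = ContinuousMap.id X := by
          ext x
          exact smul_inv_smul _ _
        rw [h3, push_id, bd_push, ih, bdT_single_succ, bdT_single_succ,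
          Fin.sum_univ_succ (n := n + 2)]
        have h4 : sM R D x₀ (Finsupp.single (⟨n + 1, fun j => v j.succ⟩ : Tu G) r) =
            r • sM R D x₀ (Finsupp.single
              (⟨n + 1, fun j => v ((0 : Fin (n + 3)).succAbove j)⟩ : Tu G)
              ((-1 : R) ^ ((0 : Fin (n + 3)) : ℕ))) := by
          rw [← map_smul, Finsupp.smul_single]
          simp
        have h5 : ∀ i : Fin (n + 2), sM R D x₀ (Finsupp.single
            (⟨n + 1, fun j => v (i.succ.succAbove j)⟩ : Tu G) ((-1 : R) ^ (i.succ : ℕ))) =
            - push R (act G (v 0)) (D.op R (push R (act G (v 0)⁻¹) (sM R D x₀ (Finsupp.single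
              (⟨n, fun j => v (i.succAbove j).succ⟩ : Tu G) ((-1 : R) ^ (i : ℕ)))))) := by
          intro i
          rw [sM_succ]
          have h6 : v (i.succ.succAbove 0) = v 0 := by simp
          have h7 : (fun j : Fin (n + 1) => v (i.succ.succAbove j.succ)) =
              fun j => v (i.succAbove j).succ := by
            funext j
            simp
          rw [h6, h7]
          have h8 : Finsupp.single (⟨n, fun j => v (i.succAbove j).succ⟩ : Tu G)
              ((-1 : R) ^ (i.succ : ℕ)) = - Finsupp.single
                (⟨n, fun j => v (i.succAbove j).succ⟩ : Tu G) ((-1 : R) ^ (i : ℕ)) := by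
            rw [← Finsupp.single_neg]
            simp [pow_succ]
          rw [h8]
          simp only [map_neg]
        simp only [map_smul, map_sum, map_add, smul_add]
        rw [← h4, Finset.sum_congr rfl fun i _ => h5 i, Finset.sum_neg_distrib, smul_neg,
          sub_eq_add_neg]
  induction c using Finsupp.induction_linear with
  | zero => simp
  | add a b ha hb => simp only [map_add, ha, hb]
  | single s r =>
    obtain ⟨n, v⟩ := s
    exact key n v r

end Pool.Agent.W_3f1825_top
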