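import Pool.Agent.W_3f1825_top.TDefs
import Pool.Agent.W_MP_6d5819_gt.BdBd

set_option autoImplicit false

/-! Basic properties of homogeneous chains. -/

namespace Pool.Agent.W_3f1825_top

variable (R : Type) [CommRing R] {S S' S'' : Type}

@[simp] theorem bdT_single_zero (v : Fin 1 → S) (r : R) :
    bdT R (Finsupp.single (⟨0, v⟩ : Tu S) r) = 0 := by
  simp [bdT, bdTu]

theorem bdT_single_succ {n : ℕ} (v : Fin (n + 2) → S) (r : R) :
    bdT R (Finsupp.single (⟨n + 1, v⟩ : Tu S) r) =
      r • ∑ i : Fin (n + 2), Finsupp.single (⟨n, fun j => v (i.succAbove j)⟩ : Tu S)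
        ((-1 : R) ^ (i : ℕ)) := by
  simp [bdT, bdTu]

theorem bdT_bdT (c : TC R S) : bdT R (bdT R c) = 0 := by
  induction c using Finsupp.induction_linear with
  | zero => simp
  | add a b ha hb => simp only [map_add, ha, hb, add_zero]
  | single s r =>
    obtain ⟨n, σ⟩ := s
    cases n with
    | zero => rw [bdT_single_zero, map_zero]
    | succ n =>
      rw [bdT_single_succ, map_smul, map_sum]
      cases n with
      | zero =>
        simp only [bdT_single_zero, Finset.sum_const_zero, smul_zero]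
      | succ n =>
        simp only [bdT_single_succ]
        have key : ∑ i : Fin (n + 3), ((-1 : R) ^ (i : ℕ)) • ∑ j : Fin (n + 2),
            Finsupp.single (⟨n, fun k => σ (i.succAbove (j.succAbove k))⟩ : Tu S)
              ((-1 : R) ^ (j : ℕ)) = 0 := by
          simp only [Finset.smul_sum, Finsupp.smul_single, smul_eq_mul]
          rw [Finset.sum_comm, ← Finset.sum_product']
          let P := Fin (n + 2) × Fin (n + 3)
          let A : Finset P := Finset.univ.filter (fun ij : P => (ij.2 : ℕ) ≤ (ij.1 : ℕ))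
          rw [Finset.univ_product_univ, ← Finset.sum_add_sum_compl A,
            ← eq_neg_iff_add_eq_zero, ← Finset.sum_neg_distrib]
          refine Finset.sum_bij (fun (ij : P) hij =>
            ((Fin.castLT ij.2 (lt_of_le_of_lt (Finset.mem_filter.mp hij).right (Fin.is_lt ij.1)),
              ij.1.succ) : P)) ?_ ?_ ?_ ?_
          · rintro ⟨i, j⟩ hij
            simp only [A, Finset.mem_filter, Finset.mem_univ, true_and, Finset.mem_compl] at hij ⊢
            simp only [Fin.val_succ, Fin.val_castLT]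
            omega
          · rintro ⟨i, j⟩ hij ⟨i', j'⟩ hij' h
            have h1 := congrArg (fun p : P => (p.1 : ℕ)) h
            have h2 := congrArg (fun p : P => (p.2 : ℕ)) h
            simp only [Fin.val_castLT, Fin.val_succ] at h1 h2
            ext
            · simp only; omega
            · simp only; omega
          · rintro ⟨i', j'⟩ hij'
            simp only [A, Finset.mem_filter, Finset.mem_univ, true_and, Finset.mem_compl,
              not_le] at hij'
            have hj' : (j' : ℕ) ≠ 0 := by omega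
            refine ⟨(j'.pred (by rw [Ne, Fin.ext_iff]; exact hj'), Fin.castSucc i'), ?_, ?_⟩
            · simp only [A, Finset.mem_filter, Finset.mem_univ, true_and, Fin.val_castSucc,
                Fin.val_pred]
              omega
            · simp only [Fin.castLT_castSucc, Fin.succ_pred]
          · rintro ⟨i, j⟩ hij
            have hij' : (j : ℕ) ≤ (i : ℕ) := (Finset.mem_filter.mp hij).2
            simp only
            have h1 : ∀ k, j.succAbove (i.succAbove k) = (i.succ).succAbove
                ((Fin.castLT j (lt_of_le_of_lt hij' i.is_lt)).succAbove k) :=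
              fun k => Pool.Agent.W_MP_6d5819_gt.succAbove_swap i j hij' k
            simp only [h1]
            rw [← Finsupp.single_neg]
            congr 1
            rw [Fin.val_castLT, Fin.val_succ, pow_succ]
            ring
        rw [key, smul_zero]

theorem mpT_single (f : S → S') (s : Tu S) (r : R) :
    mpT R f (Finsupp.single s r) = Finsupp.single (mpTu f s) r := by
  simp [mpT]

theorem mpT_id (c : TC R S) : mpT R (id : S → S) c = c := by
  have : mpTu (id : S → S) = id := by
    funext s; rfl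
  simp [mpT, this]

theorem mpT_mpT (g : S' → S'') (f : S → S') (c : TC R S) :
    mpT R g (mpT R f c) = mpT R (g ∘ f) c := by
  simp only [mpT, Finsupp.lmapDomain_apply]
  rw [← Finsupp.mapDomain_comp]
  rfl

theorem bdT_mpT (f : S → S') (c : TC R S) : bdT R (mpT R f c) = mpT R f (bdT R c) := by
  induction c using Finsupp.induction_linear with
  | zero => simp
  | add a b ha hb => simp [ha, hb]
  | single s r =>
    obtain ⟨n, v⟩ := s
    cases n with
    | zero => rw [mpT_single, mpTu, bdT_single_zero, bdT_single_zero, map_zero]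
    | succ n =>
      rw [mpT_single, mpTu, bdT_single_succ, bdT_single_succ, map_smul, map_sum]
      simp_rw [mpT_single]
      rfl

theorem mem_tin {n : ℕ} {c : TC R S} : c ∈ tin R S n ↔ ∀ s ∈ c.support, s.1 = n := by
  rw [tin, Finsupp.mem_supported]
  rfl

theorem single_mem_tin {n : ℕ} (v : Fin (n + 1) → S) (r : R) :
    Finsupp.single (⟨n, v⟩ : Tu S) r ∈ tin R S n :=
  Finsupp.single_mem_supported R r rfl

/-- Induction principle for chains of degree `n`. -/
theorem tin_induction {n : ℕ} {P : TC R S → Prop}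
    (h0 : P 0) (hadd : ∀ a b, a ∈ tin R S n → b ∈ tin R S n → P a → P b → P (a + b))
    (hs : ∀ (v : Fin (n + 1) → S), ∀ r, P (Finsupp.single ⟨n, v⟩ r))
    (c : TC R S) (hc : c ∈ tin R S n) : P c := by
  classical
  rw [mem_tin] at hc
  induction c using Finsupp.induction with
  | zero => exact h0
  | single_add s r f hsf hr ih =>
    have hsupp : ∀ t ∈ f.support, t ∈ (Finsupp.single s r + f).support := by
      intro t ht
      rw [Finsupp.support_single_add hsf hr]
      exact Finset.mem_cons_of_mem ht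
    have hss : s ∈ (Finsupp.single s r + f).support := by
      rw [Finsupp.support_single_add hsf hr]
      exact Finset.mem_cons_self _ _
    have hf : ∀ t ∈ f.support, t.1 = n := fun t ht => hc t (hsupp t ht)
    obtain ⟨k, σ⟩ := s
    have h1 := hc _ hss
    simp only at h1
    subst h1
    exact hadd _ _ (single_mem_tin R σ r) ((mem_tin R).2 hf) (hs σ r) (ih hf)

theorem map_mem_of_tin {n : ℕ} {V : Type} [AddCommGroup V] [Module R V] (f : TC R S →ₗ[R] V)
    (P : Submodule R V) (h : ∀ v : Fin (n + 1) → S, f (Finsupp.single ⟨n, v⟩ 1) ∈ P) {c : TC R S}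
    (hc : c ∈ tin R S n) : f c ∈ P := by
  refine tin_induction R (P := fun c => f c ∈ P) (by simp)
    (fun a b _ _ ha hb => by rw [map_add]; exact Submodule.add_mem _ ha hb) ?_ c hc
  intro v r
  have : Finsupp.single (⟨n, v⟩ : Tu S) r = r • Finsupp.single (⟨n, v⟩ : Tu S) (1 : R) := by simp
  rw [this, map_smul]
  exact Submodule.smul_mem _ _ (h v)

theorem bdT_mem {n : ℕ} {c : TC R S} (hc : c ∈ tin R S (n + 1)) : bdT R c ∈ tin R S n := by
  refine map_mem_of_tin R (bdT R) _ ?_ hc
  intro v
  rw [bdT_single_succ]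
  exact Submodule.smul_mem _ _ (Submodule.sum_mem _ fun i _ => single_mem_tin R _ _)

theorem bdT_zero_of_tin {c : TC R S} (hc : c ∈ tin R S 0) : bdT R c = 0 := by
  have := map_mem_of_tin R (bdT R) ⊥ (fun v => by simp) hc
  simpa using this

theorem mpT_mem {n : ℕ} (f : S → S') {c : TC R S} (hc : c ∈ tin R S n) :
    mpT R f c ∈ tin R S' n := by
  refine map_mem_of_tin R (mpT R f) _ ?_ hc
  intro v
  rw [mpT_single]
  exact single_mem_tin R _ _

/-- the cone over `s₀` -/
noncomputable def kT (s₀ : S) : TC R S →ₗ[R] TC R S :=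
  Finsupp.lmapDomain R R fun s : Tu S => (⟨s.1 + 1, Fin.cons s₀ s.2⟩ : Tu S)

theorem kT_single (s₀ : S) {n : ℕ} (v : Fin (n + 1) → S) (r : R) :
    kT R s₀ (Finsupp.single (⟨n, v⟩ : Tu S) r) = Finsupp.single (⟨n + 1, Fin.cons s₀ v⟩ : Tu S) r := by
  simp [kT]

theorem kT_mem (s₀ : S) {n : ℕ} {c : TC R S} (hc : c ∈ tin R S n) :
    kT R s₀ c ∈ tin R S (n + 1) := by
  refine map_mem_of_tin R (kT R s₀) _ ?_ hc
  intro v
  rw [kT_single]
  exact single_mem_tin R _ _

theorem bdT_kT_single (s₀ : S) {n : ℕ} (v : Fin (n + 2) → S) (r : R) :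
    bdT R (kT R s₀ (Finsupp.single (⟨n + 1, v⟩ : Tu S) r)) +
      kT R s₀ (bdT R (Finsupp.single (⟨n + 1, v⟩ : Tu S) r)) =
      Finsupp.single (⟨n + 1, v⟩ : Tu S) r := by
  rw [kT_single, bdT_single_succ, bdT_single_succ, map_smul, map_sum, ← smul_add,
    Fin.sum_univ_succ, add_assoc]
  have h1 : (fun j => (Fin.cons s₀ v : Fin (n + 3) → S) ((0 : Fin (n + 3)).succAbove j)) = v := by
    funext j
    simp
  have h2 : ∀ i : Fin (n + 2), Finsupp.single (⟨n + 1, fun j =>
      (Fin.cons s₀ v : Fin (n + 3) → S) (i.succ.succAbove j)⟩ : Tu S) ((-1 : R) ^ (i.succ : ℕ)) +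
      kT R s₀ (Finsupp.single (⟨n, fun j => v (i.succAbove j)⟩ : Tu S) ((-1 : R) ^ (i : ℕ))) = 0 := by
    intro i
    rw [kT_single]
    have h3 : (fun j => (Fin.cons s₀ v : Fin (n + 3) → S) (i.succ.succAbove j)) =
        Fin.cons s₀ (fun j => v (i.succAbove j)) := by
      funext j
      refine Fin.cases ?_ (fun j => ?_) j
      · simp
      · simp
    rw [h3, ← Finsupp.single_add]
    simp [pow_succ]
  rw [h1, ← Finset.sum_add_distrib, Finset.sum_eq_zero fun i _ => h2 i]
  simp

theorem bdT_kT (s₀ : S) {n : ℕ} {c : TC R S} (hc : c ∈ tin R S (n + 1)) :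
    bdT R (kT R s₀ c) + kT R s₀ (bdT R c) = c := by
  have h := map_mem_of_tin R ((bdT R).comp (kT R s₀) + (kT R s₀).comp (bdT R) - LinearMap.id) ⊥
    (fun v => by
      rw [Submodule.mem_bot]
      change bdT R (kT R s₀ _) + kT R s₀ (bdT R _) - Finsupp.single (⟨n + 1, v⟩ : Tu S) (1 : R) = 0
      rw [bdT_kT_single, sub_self]) hc
  rw [Submodule.mem_bot] at h
  exact sub_eq_zero.1 h

theorem bdT_kT_zero (s₀ : S) (v : Fin 1 → S) (r : R) :
    bdT R (kT R s₀ (Finsupp.single (⟨0, v⟩ : Tu S) r)) =
      Finsupp.single (⟨0, v⟩ : Tu S) r - Finsupp.single (⟨0, fun _ => s₀⟩ : Tu S) r := by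
  rw [kT_single, bdT_single_succ, Fin.sum_univ_two]
  have h1 : (fun j => (Fin.cons s₀ v : Fin 2 → S) ((0 : Fin 2).succAbove j)) = v := by
    funext j
    simp
  have h2 : (fun j => (Fin.cons s₀ v : Fin 2 → S) ((1 : Fin 2).succAbove j)) = fun _ => s₀ := by
    funext j
    fin_cases j
    rfl
  rw [h1, h2]
  simp [sub_eq_add_neg]

section

variable {G : Type} [Group G] [MulAction G S]

theorem dltT_mem (g : G) (c : TC R S) :
    mpT R (fun s : S => g • s) c - c ∈ dltT R (S := S) G := Submodule.subset_span ⟨(g, c), rfl⟩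

theorem dltT_le {V : Type} [AddCommGroup V] [Module R V] (f : TC R S →ₗ[R] V) (P : Submodule R V)
    (h : ∀ (g : G) (c : TC R S), f (mpT R (fun s : S => g • s) c - c) ∈ P) {c : TC R S}
    (hc : c ∈ dltT R (S := S) G) : f c ∈ P := by
  have : dltT R (S := S) G ≤ P.comap f := by
    rw [dltT, Submodule.span_le]
    rintro _ ⟨⟨g, c⟩, rfl⟩
    exact h g c
  exact this hc

theorem dltT_bdT {c : TC R S} (hc : c ∈ dltT R (S := S) G) : bdT R c ∈ dltT R (S := S) G := by
  refine dltT_le R (bdT R) _ ?_ hc
  intro g c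
  rw [map_sub, bdT_mpT]
  exact dltT_mem R g _

end

/-! ### The norm -/

theorem nrm_eq_of_subset {T : Type} (c : T →₀ ℝ) {s : Finset T} (h : c.support ⊆ s) :
    nrm c = ∑ t ∈ s, |c t| := by
  unfold nrm
  refine Finset.sum_subset h fun t _ ht => ?_
  rw [Finsupp.notMem_support_iff.1 ht, abs_zero]

theorem nrm_nonneg {T : Type} (c : T →₀ ℝ) : 0 ≤ nrm c := Finset.sum_nonneg fun _ _ => abs_nonneg _

theorem nrm_zero {T : Type} : nrm (0 : T →₀ ℝ) = 0 := by simp [nrm]

theorem nrm_add_le {T : Type} (a b : T →₀ ℝ) : nrm (a + b) ≤ nrm a + nrm b := by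
  classical
  rw [nrm_eq_of_subset (a + b) Finsupp.support_add,
    nrm_eq_of_subset a (Finset.subset_union_left (s₂ := b.support)),
    nrm_eq_of_subset b (Finset.subset_union_right (s₁ := a.support)), ← Finset.sum_add_distrib]
  exact Finset.sum_le_sum fun t _ => by rw [Finsupp.add_apply]; exact abs_add_le _ _

theorem nrm_smul {T : Type} (r : ℝ) (a : T →₀ ℝ) : nrm (r • a) = |r| * nrm a := by
  rw [nrm_eq_of_subset (r • a) Finsupp.support_smul, nrm, Finset.mul_sum]
  exact Finset.sum_congr rfl fun t _ => by rw [Finsupp.smul_apply, smul_eq_mul, abs_mul]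

theorem nrm_single {T : Type} (t : T) (r : ℝ) : nrm (Finsupp.single t r) = |r| := by
  classical
  rw [nrm_eq_of_subset _ Finsupp.support_single_subset, Finset.sum_singleton,
    Finsupp.single_eq_same]

theorem nrm_neg {T : Type} (a : T →₀ ℝ) : nrm (-a) = nrm a := by
  have := nrm_smul (-1) a
  simpa using this

theorem nrm_sum_le {T ι : Type} (s : Finset ι) (f : ι → T →₀ ℝ) :
    nrm (∑ i ∈ s, f i) ≤ ∑ i ∈ s, nrm (f i) := by
  classical
  induction s using Finset.induction_on with
  | empty => simp [nrm_zero]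
  | insert a s ha ih =>
    rw [Finset.sum_insert ha, Finset.sum_insert ha]
    exact (nrm_add_le _ _).trans (add_le_add_right ih _)

/-- a linear map with `nrm (f (single t 1)) ≤ C` on basis elements has norm at most `C` -/
theorem nrm_map_le {T T' : Type} (f : (T →₀ ℝ) →ₗ[ℝ] (T' →₀ ℝ)) {C : ℝ}
    (h : ∀ t, nrm (f (Finsupp.single t 1)) ≤ C) (c : T →₀ ℝ) : nrm (f c) ≤ C * nrm c := by
  have h1 : c = ∑ t ∈ c.support, c t • Finsupp.single t (1 : ℝ) := by
    conv_lhs => rw [← Finsupp.sum_single c]
    rw [Finsupp.sum]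
    refine Finset.sum_congr rfl fun t _ => ?_
    simp
  have h2 : f c = ∑ t ∈ c.support, c t • f (Finsupp.single t (1 : ℝ)) := by
    conv_lhs => rw [h1]
    rw [map_sum]
    refine Finset.sum_congr rfl fun t _ => ?_
    rw [map_smul]
  have h3 : C * nrm c = ∑ t ∈ c.support, C * |c t| := by rw [nrm, Finset.mul_sum]
  rw [h2, h3]
  refine (nrm_sum_le _ _).trans (Finset.sum_le_sum fun t _ => ?_)
  rw [nrm_smul, mul_comm]
  exact mul_le_mul_of_nonneg_right (h t) (abs_nonneg _)

theorem nrm_mapDomain_le {T T' : Type} (f : T → T') (c : T →₀ ℝ) :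
    nrm (Finsupp.lmapDomain ℝ ℝ f c) ≤ nrm c := by
  have := nrm_map_le (Finsupp.lmapDomain ℝ ℝ f) (C := 1) (fun t => by
    rw [Finsupp.lmapDomain_apply, Finsupp.mapDomain_single, nrm_single, abs_one]) c
  rwa [one_mul] at this

end Pool.Agent.W_3f1825_top
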